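import Pool.Agent.Work.MP_8f87b2_sk.K12T
import Pool.Agent.Work.MP_8f87b2_sk.K11

/-! `O_12`: kernel run, part 1 of 4. -/

set_option maxRecDepth 100000

namespace Pool.Agent.Work.MP_8f87b2_sk.K12

open Pool.Agent.Work.MP_8f87b2_sk

theorem p0_c0 : run 33554431 25 24 4095 lk 3461805 10799 1000 4095 0 = true := by decide +kernel
theorem p0_c1 : run 33554431 25 24 4095 lk 3262119 20908 1000 3461805 10799 = true := by decide +kernel
theorem p0_c2 : run 33554431 25 24 4095 lk 1287485 30262 1000 3262119 20908 = true := by decide +kernel
theorem p0_c3 : run 33554431 25 24 4095 lk 2739279 40374 1000 1287485 30262 = true := by decide +kernel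
theorem p0_c4 : run 33554431 25 24 4095 lk 1463015 50246 1000 2739279 40374 = true := by decide +kernel
theorem p0_c5 : run 33554431 25 24 4095 lk 3250547 60399 1000 1463015 50246 = true := by decide +kernel
theorem p0_c6 : run 33554431 25 24 4095 lk 4654963 70698 1000 3250547 60399 = true := by decide +kernel
theorem p0_c7 : run 33554431 25 24 4095 lk 553853 81753 1000 4654963 70698 = true := by decide +kernel
theorem p0_c8 : run 33554431 25 24 4095 lk 2112893 92989 1000 553853 81753 = true := by decide +kernel
theorem p0_c9 : run 33554431 25 24 4095 lk 5347687 104092 1000 2112893 92989 = true := by decide +kernel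
theorem p0_c10 : run 33554431 25 24 4095 lk 3346863 114023 1000 5347687 104092 = true := by decide +kernel
theorem p0_c11 : run 33554431 25 24 4095 lk 2519879 123734 1000 3346863 114023 = true := by decide +kernel
theorem p0_c12 : run 33554431 25 24 4095 lk 2417263 133403 1000 2519879 123734 = true := by decide +kernel
theorem p0_c13 : run 33554431 25 24 4095 lk 2666279 142991 1000 2417263 133403 = true := by decide +kernel
theorem p0_c14 : run 33554431 25 24 4095 lk 2958523 152588 1000 2666279 142991 = true := by decide +kernel
theorem p0_c15 : run 33554431 25 24 4095 lk 3428053 163234 1000 2958523 152588 = true := by decide +kernel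
theorem p0_c16 : run 33554431 25 24 4095 lk 5302727 173982 1000 3428053 163234 = true := by decide +kernel
theorem p0_c17 : run 33554431 25 24 4095 lk 1509847 183790 1000 5302727 173982 = true := by decide +kernel
theorem p0_c18 : run 33554431 25 24 4095 lk 1861839 193586 1000 1509847 183790 = true := by decide +kernel
theorem p0_c19 : run 33554431 25 24 4095 lk 1859823 204599 1000 1861839 193586 = true := by decide +kernel
theorem p0_c20 : run 33554431 25 24 4095 lk 2961773 215085 1000 1859823 204599 = true := by decide +kernel
theorem p0_c21 : run 33554431 25 24 4095 lk 1676909 224425 1000 2961773 215085 = true := by decide +kernel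
theorem p0_c22 : run 33554431 25 24 4095 lk 5411069 234839 1000 1676909 224425 = true := by decide +kernel
theorem p0_c23 : run 33554431 25 24 4095 lk 1219407 246031 1000 5411069 234839 = true := by decide +kernel
theorem p0_c24 : run 33554431 25 24 4095 lk 350069 256809 1000 1219407 246031 = true := by decide +kernel
theorem p0_c25 : run 33554431 25 24 4095 lk 5283431 267235 1000 350069 256809 = true := by decide +kernel
theorem p0_c26 : run 33554431 25 24 4095 lk 3181935 277772 1000 5283431 267235 = true := by decide +kernel
theorem p0_c27 : run 33554431 25 24 4095 lk 2798183 288486 1000 3181935 277772 = true := by decide +kernel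
theorem p0_c28 : run 33554431 25 24 4095 lk 3224525 299292 1000 2798183 288486 = true := by decide +kernel
theorem p0_c29 : run 33554431 25 24 4095 lk 875731 308697 1000 3224525 299292 = true := by decide +kernel
theorem p0_c30 : run 33554431 25 24 4095 lk 3195711 320133 1000 875731 308697 = true := by decide +kernel
theorem p0_c31 : run 33554431 25 24 4095 lk 5457323 331147 1000 3195711 320133 = true := by decide +kernel
theorem p0_c32 : run 33554431 25 24 4095 lk 649899 341355 1000 5457323 331147 = true := by decide +kernel
theorem p0_c33 : run 33554431 25 24 4095 lk 4534703 350974 1000 649899 341355 = true := by decide +kernel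
theorem p0_c34 : run 33554431 25 24 4095 lk 2732239 361813 1000 4534703 350974 = true := by decide +kernel
theorem p0_c35 : run 33554431 25 24 4095 lk 4537391 372365 1000 2732239 361813 = true := by decide +kernel
theorem p0_c36 : run 33554431 25 24 4095 lk 4575687 381928 1000 4537391 372365 = true := by decide +kernel
theorem p0_c37 : run 33554431 25 24 4095 lk 1682123 391904 1000 4575687 381928 = true := by decide +kernel
theorem p0_c38 : run 33554431 25 24 4095 lk 125675 402948 1000 1682123 391904 = true := by decide +kernel
theorem p0_c39 : run 33554431 25 24 4095 lk 3245295 414412 1000 125675 402948 = true := by decide +kernel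
theorem p0_c40 : run 33554431 25 24 4095 lk 2494111 425991 1000 3245295 414412 = true := by decide +kernel
theorem p0_c41 : run 33554431 25 24 4095 lk 3445707 435765 1000 2494111 425991 = true := by decide +kernel
theorem p0_c42 : run 33554431 25 24 4095 lk 1295579 446060 1000 3445707 435765 = true := by decide +kernel
theorem p0_c43 : run 33554431 25 24 4095 lk 452043 456863 1000 1295579 446060 = true := by decide +kernel
theorem p0_c44 : run 33554431 25 24 4095 lk 1103167 467764 1000 452043 456863 = true := by decide +kernel
theorem p0_c45 : run 33554431 25 24 4095 lk 256693 478859 1000 1103167 467764 = true := by decide +kernel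
theorem p0_c46 : run 33554431 25 24 4095 lk 805599 489791 1000 256693 478859 = true := by decide +kernel
theorem p0_c47 : run 33554431 25 24 4095 lk 1724115 500259 1000 805599 489791 = true := by decide +kernel
theorem p0_c48 : run 33554431 25 24 4095 lk 3236191 511194 1000 1724115 500259 = true := by decide +kernel
theorem p0_c49 : run 33554431 25 24 4095 lk 5528693 521244 1000 3236191 511194 = true := by decide +kernel
theorem p0_c50 : run 33554431 25 24 4095 lk 2706355 531622 1000 5528693 521244 = true := by decide +kernel
theorem p0_c51 : run 33554431 25 24 4095 lk 5423549 541899 1000 2706355 531622 = true := by decide +kernel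
theorem p0_c52 : run 33554431 25 24 4095 lk 1225853 541930 3 5423549 541899 = true := by decide +kernel

theorem p0_seg : Seg 12 4095 lk 4095 0 52003 1225853 541930 := by
  have s0 := seg_of_run (k := 12) (by norm_num) rfl rfl p0_c0
  have s1 := s0.trans (seg_of_run (k := 12) (by norm_num) rfl rfl p0_c1)
  have s2 := s1.trans (seg_of_run (k := 12) (by norm_num) rfl rfl p0_c2)
  have s3 := s2.trans (seg_of_run (k := 12) (by norm_num) rfl rfl p0_c3)
  have s4 := s3.trans (seg_of_run (k := 12) (by norm_num) rfl rfl p0_c4)
  have s5 := s4.trans (seg_of_run (k := 12) (by norm_num) rfl rfl p0_c5)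
  have s6 := s5.trans (seg_of_run (k := 12) (by norm_num) rfl rfl p0_c6)
  have s7 := s6.trans (seg_of_run (k := 12) (by norm_num) rfl rfl p0_c7)
  have s8 := s7.trans (seg_of_run (k := 12) (by norm_num) rfl rfl p0_c8)
  have s9 := s8.trans (seg_of_run (k := 12) (by norm_num) rfl rfl p0_c9)
  have s10 := s9.trans (seg_of_run (k := 12) (by norm_num) rfl rfl p0_c10)
  have s11 := s10.trans (seg_of_run (k := 12) (by norm_num) rfl rfl p0_c11)
  have s12 := s11.trans (seg_of_run (k := 12) (by norm_num) rfl rfl p0_c12)
  have s13 := s12.trans (seg_of_run (k := 12) (by norm_num) rfl rfl p0_c13)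
  have s14 := s13.trans (seg_of_run (k := 12) (by norm_num) rfl rfl p0_c14)
  have s15 := s14.trans (seg_of_run (k := 12) (by norm_num) rfl rfl p0_c15)
  have s16 := s15.trans (seg_of_run (k := 12) (by norm_num) rfl rfl p0_c16)
  have s17 := s16.trans (seg_of_run (k := 12) (by norm_num) rfl rfl p0_c17)
  have s18 := s17.trans (seg_of_run (k := 12) (by norm_num) rfl rfl p0_c18)
  have s19 := s18.trans (seg_of_run (k := 12) (by norm_num) rfl rfl p0_c19)
  have s20 := s19.trans (seg_of_run (k := 12) (by norm_num) rfl rfl p0_c20)
  have s21 := s20.trans (seg_of_run (k := 12) (by norm_num) rfl rfl p0_c21)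
  have s22 := s21.trans (seg_of_run (k := 12) (by norm_num) rfl rfl p0_c22)
  have s23 := s22.trans (seg_of_run (k := 12) (by norm_num) rfl rfl p0_c23)
  have s24 := s23.trans (seg_of_run (k := 12) (by norm_num) rfl rfl p0_c24)
  have s25 := s24.trans (seg_of_run (k := 12) (by norm_num) rfl rfl p0_c25)
  have s26 := s25.trans (seg_of_run (k := 12) (by norm_num) rfl rfl p0_c26)
  have s27 := s26.trans (seg_of_run (k := 12) (by norm_num) rfl rfl p0_c27)
  have s28 := s27.trans (seg_of_run (k := 12) (by norm_num) rfl rfl p0_c28)
  have s29 := s28.trans (seg_of_run (k := 12) (by norm_num) rfl rfl p0_c29)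
  have s30 := s29.trans (seg_of_run (k := 12) (by norm_num) rfl rfl p0_c30)
  have s31 := s30.trans (seg_of_run (k := 12) (by norm_num) rfl rfl p0_c31)
  have s32 := s31.trans (seg_of_run (k := 12) (by norm_num) rfl rfl p0_c32)
  have s33 := s32.trans (seg_of_run (k := 12) (by norm_num) rfl rfl p0_c33)
  have s34 := s33.trans (seg_of_run (k := 12) (by norm_num) rfl rfl p0_c34)
  have s35 := s34.trans (seg_of_run (k := 12) (by norm_num) rfl rfl p0_c35)
  have s36 := s35.trans (seg_of_run (k := 12) (by norm_num) rfl rfl p0_c36)
  have s37 := s36.trans (seg_of_run (k := 12) (by norm_num) rfl rfl p0_c37)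
  have s38 := s37.trans (seg_of_run (k := 12) (by norm_num) rfl rfl p0_c38)
  have s39 := s38.trans (seg_of_run (k := 12) (by norm_num) rfl rfl p0_c39)
  have s40 := s39.trans (seg_of_run (k := 12) (by norm_num) rfl rfl p0_c40)
  have s41 := s40.trans (seg_of_run (k := 12) (by norm_num) rfl rfl p0_c41)
  have s42 := s41.trans (seg_of_run (k := 12) (by norm_num) rfl rfl p0_c42)
  have s43 := s42.trans (seg_of_run (k := 12) (by norm_num) rfl rfl p0_c43)
  have s44 := s43.trans (seg_of_run (k := 12) (by norm_num) rfl rfl p0_c44)
  have s45 := s44.trans (seg_of_run (k := 12) (by norm_num) rfl rfl p0_c45)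
  have s46 := s45.trans (seg_of_run (k := 12) (by norm_num) rfl rfl p0_c46)
  have s47 := s46.trans (seg_of_run (k := 12) (by norm_num) rfl rfl p0_c47)
  have s48 := s47.trans (seg_of_run (k := 12) (by norm_num) rfl rfl p0_c48)
  have s49 := s48.trans (seg_of_run (k := 12) (by norm_num) rfl rfl p0_c49)
  have s50 := s49.trans (seg_of_run (k := 12) (by norm_num) rfl rfl p0_c50)
  have s51 := s50.trans (seg_of_run (k := 12) (by norm_num) rfl rfl p0_c51)
  have s52 := s51.trans (seg_of_run (k := 12) (by norm_num) rfl rfl p0_c52)
  exact s52

end Pool.Agent.Work.MP_8f87b2_sk.K12
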