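import Pool.Agent.Work.MP_8f87b2_sk.K12T
import Pool.Agent.Work.MP_8f87b2_sk.K12P0

/-! `O_12`: kernel run, part 2 of 4. -/

set_option maxRecDepth 100000

namespace Pool.Agent.Work.MP_8f87b2_sk.K12

open Pool.Agent.Work.MP_8f87b2_sk

theorem p1_c0 : run 33554431 25 24 4095 lk 986931 552750 1000 1225853 541930 = true := by decide +kernel
theorem p1_c1 : run 33554431 25 24 4095 lk 924959 562602 1000 986931 552750 = true := by decide +kernel
theorem p1_c2 : run 33554431 25 24 4095 lk 4310765 571931 1000 924959 562602 = true := by decide +kernel
theorem p1_c3 : run 33554431 25 24 4095 lk 2438811 583331 1000 4310765 571931 = true := by decide +kernel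
theorem p1_c4 : run 33554431 25 24 4095 lk 4516551 593392 1000 2438811 583331 = true := by decide +kernel
theorem p1_c5 : run 33554431 25 24 4095 lk 5358951 602940 1000 4516551 593392 = true := by decide +kernel
theorem p1_c6 : run 33554431 25 24 4095 lk 629885 613274 1000 5358951 602940 = true := by decide +kernel
theorem p1_c7 : run 33554431 25 24 4095 lk 4811947 623495 1000 629885 613274 = true := by decide +kernel
theorem p1_c8 : run 33554431 25 24 4095 lk 1260851 633522 1000 4811947 623495 = true := by decide +kernel
theorem p1_c9 : run 33554431 25 24 4095 lk 511067 643113 1000 1260851 633522 = true := by decide +kernel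
theorem p1_c10 : run 33554431 25 24 4095 lk 802247 654250 1000 511067 643113 = true := by decide +kernel
theorem p1_c11 : run 33554431 25 24 4095 lk 1595251 665014 1000 802247 654250 = true := by decide +kernel
theorem p1_c12 : run 33554431 25 24 4095 lk 2305845 675712 1000 1595251 665014 = true := by decide +kernel
theorem p1_c13 : run 33554431 25 24 4095 lk 351693 684756 1000 2305845 675712 = true := by decide +kernel
theorem p1_c14 : run 33554431 25 24 4095 lk 4594365 694580 1000 351693 684756 = true := by decide +kernel
theorem p1_c15 : run 33554431 25 24 4095 lk 1129071 705252 1000 4594365 694580 = true := by decide +kernel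
theorem p1_c16 : run 33554431 25 24 4095 lk 368071 715779 1000 1129071 705252 = true := by decide +kernel
theorem p1_c17 : run 33554431 25 24 4095 lk 4348659 727183 1000 368071 715779 = true := by decide +kernel
theorem p1_c18 : run 33554431 25 24 4095 lk 5351837 737288 1000 4348659 727183 = true := by decide +kernel
theorem p1_c19 : run 33554431 25 24 4095 lk 874813 747989 1000 5351837 737288 = true := by decide +kernel
theorem p1_c20 : run 33554431 25 24 4095 lk 4625139 757287 1000 874813 747989 = true := by decide +kernel
theorem p1_c21 : run 33554431 25 24 4095 lk 2128687 767981 1000 4625139 757287 = true := by decide +kernel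
theorem p1_c22 : run 33554431 25 24 4095 lk 1476831 779420 1000 2128687 767981 = true := by decide +kernel
theorem p1_c23 : run 33554431 25 24 4095 lk 2649811 790570 1000 1476831 779420 = true := by decide +kernel
theorem p1_c24 : run 33554431 25 24 4095 lk 5444845 800506 1000 2649811 790570 = true := by decide +kernel
theorem p1_c25 : run 33554431 25 24 4095 lk 2450999 810733 1000 5444845 800506 = true := by decide +kernel
theorem p1_c26 : run 33554431 25 24 4095 lk 2651919 820501 1000 2450999 810733 = true := by decide +kernel
theorem p1_c27 : run 33554431 25 24 4095 lk 5030387 829367 1000 2651919 820501 = true := by decide +kernel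
theorem p1_c28 : run 33554431 25 24 4095 lk 2301301 838645 1000 5030387 829367 = true := by decide +kernel
theorem p1_c29 : run 33554431 25 24 4095 lk 5331727 848798 1000 2301301 838645 = true := by decide +kernel
theorem p1_c30 : run 33554431 25 24 4095 lk 1225453 859449 1000 5331727 848798 = true := by decide +kernel
theorem p1_c31 : run 33554431 25 24 4095 lk 1452951 869514 1000 1225453 859449 = true := by decide +kernel
theorem p1_c32 : run 33554431 25 24 4095 lk 1878685 879993 1000 1452951 869514 = true := by decide +kernel
theorem p1_c33 : run 33554431 25 24 4095 lk 2519351 889871 1000 1878685 879993 = true := by decide +kernel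
theorem p1_c34 : run 33554431 25 24 4095 lk 1444797 899976 1000 2519351 889871 = true := by decide +kernel
theorem p1_c35 : run 33554431 25 24 4095 lk 1481015 910932 1000 1444797 899976 = true := by decide +kernel
theorem p1_c36 : run 33554431 25 24 4095 lk 1745711 921477 1000 1481015 910932 = true := by decide +kernel
theorem p1_c37 : run 33554431 25 24 4095 lk 871767 932203 1000 1745711 921477 = true := by decide +kernel
theorem p1_c38 : run 33554431 25 24 4095 lk 3330893 942104 1000 871767 932203 = true := by decide +kernel
theorem p1_c39 : run 33554431 25 24 4095 lk 436475 952185 1000 3330893 942104 = true := by decide +kernel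
theorem p1_c40 : run 33554431 25 24 4095 lk 1754355 962287 1000 436475 952185 = true := by decide +kernel
theorem p1_c41 : run 33554431 25 24 4095 lk 4221687 973425 1000 1754355 962287 = true := by decide +kernel
theorem p1_c42 : run 33554431 25 24 4095 lk 2770615 983927 1000 4221687 973425 = true := by decide +kernel
theorem p1_c43 : run 33554431 25 24 4095 lk 1229805 994902 1000 2770615 983927 = true := by decide +kernel
theorem p1_c44 : run 33554431 25 24 4095 lk 358859 1005003 1000 1229805 994902 = true := by decide +kernel
theorem p1_c45 : run 33554431 25 24 4095 lk 2188895 1016302 1000 358859 1005003 = true := by decide +kernel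
theorem p1_c46 : run 33554431 25 24 4095 lk 1166399 1026591 1000 2188895 1016302 = true := by decide +kernel
theorem p1_c47 : run 33554431 25 24 4095 lk 642515 1037997 1000 1166399 1026591 = true := by decide +kernel
theorem p1_c48 : run 33554431 25 24 4095 lk 1152375 1049036 1000 642515 1037997 = true := by decide +kernel
theorem p1_c49 : run 33554431 25 24 4095 lk 1355355 1059499 1000 1152375 1049036 = true := by decide +kernel
theorem p1_c50 : run 33554431 25 24 4095 lk 1141981 1068998 1000 1355355 1059499 = true := by decide +kernel
theorem p1_c51 : run 33554431 25 24 4095 lk 760491 1079014 1000 1141981 1068998 = true := by decide +kernel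
theorem p1_c52 : run 33554431 25 24 4095 lk 5587891 1079052 3 760491 1079014 = true := by decide +kernel

theorem p1_seg : Seg 12 4095 lk 1225853 541930 52003 5587891 1079052 := by
  have s0 := seg_of_run (k := 12) (by norm_num) rfl rfl p1_c0
  have s1 := s0.trans (seg_of_run (k := 12) (by norm_num) rfl rfl p1_c1)
  have s2 := s1.trans (seg_of_run (k := 12) (by norm_num) rfl rfl p1_c2)
  have s3 := s2.trans (seg_of_run (k := 12) (by norm_num) rfl rfl p1_c3)
  have s4 := s3.trans (seg_of_run (k := 12) (by norm_num) rfl rfl p1_c4)
  have s5 := s4.trans (seg_of_run (k := 12) (by norm_num) rfl rfl p1_c5)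
  have s6 := s5.trans (seg_of_run (k := 12) (by norm_num) rfl rfl p1_c6)
  have s7 := s6.trans (seg_of_run (k := 12) (by norm_num) rfl rfl p1_c7)
  have s8 := s7.trans (seg_of_run (k := 12) (by norm_num) rfl rfl p1_c8)
  have s9 := s8.trans (seg_of_run (k := 12) (by norm_num) rfl rfl p1_c9)
  have s10 := s9.trans (seg_of_run (k := 12) (by norm_num) rfl rfl p1_c10)
  have s11 := s10.trans (seg_of_run (k := 12) (by norm_num) rfl rfl p1_c11)
  have s12 := s11.trans (seg_of_run (k := 12) (by norm_num) rfl rfl p1_c12)
  have s13 := s12.trans (seg_of_run (k := 12) (by norm_num) rfl rfl p1_c13)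
  have s14 := s13.trans (seg_of_run (k := 12) (by norm_num) rfl rfl p1_c14)
  have s15 := s14.trans (seg_of_run (k := 12) (by norm_num) rfl rfl p1_c15)
  have s16 := s15.trans (seg_of_run (k := 12) (by norm_num) rfl rfl p1_c16)
  have s17 := s16.trans (seg_of_run (k := 12) (by norm_num) rfl rfl p1_c17)
  have s18 := s17.trans (seg_of_run (k := 12) (by norm_num) rfl rfl p1_c18)
  have s19 := s18.trans (seg_of_run (k := 12) (by norm_num) rfl rfl p1_c19)
  have s20 := s19.trans (seg_of_run (k := 12) (by norm_num) rfl rfl p1_c20)
  have s21 := s20.trans (seg_of_run (k := 12) (by norm_num) rfl rfl p1_c21)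
  have s22 := s21.trans (seg_of_run (k := 12) (by norm_num) rfl rfl p1_c22)
  have s23 := s22.trans (seg_of_run (k := 12) (by norm_num) rfl rfl p1_c23)
  have s24 := s23.trans (seg_of_run (k := 12) (by norm_num) rfl rfl p1_c24)
  have s25 := s24.trans (seg_of_run (k := 12) (by norm_num) rfl rfl p1_c25)
  have s26 := s25.trans (seg_of_run (k := 12) (by norm_num) rfl rfl p1_c26)
  have s27 := s26.trans (seg_of_run (k := 12) (by norm_num) rfl rfl p1_c27)
  have s28 := s27.trans (seg_of_run (k := 12) (by norm_num) rfl rfl p1_c28)
  have s29 := s28.trans (seg_of_run (k := 12) (by norm_num) rfl rfl p1_c29)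
  have s30 := s29.trans (seg_of_run (k := 12) (by norm_num) rfl rfl p1_c30)
  have s31 := s30.trans (seg_of_run (k := 12) (by norm_num) rfl rfl p1_c31)
  have s32 := s31.trans (seg_of_run (k := 12) (by norm_num) rfl rfl p1_c32)
  have s33 := s32.trans (seg_of_run (k := 12) (by norm_num) rfl rfl p1_c33)
  have s34 := s33.trans (seg_of_run (k := 12) (by norm_num) rfl rfl p1_c34)
  have s35 := s34.trans (seg_of_run (k := 12) (by norm_num) rfl rfl p1_c35)
  have s36 := s35.trans (seg_of_run (k := 12) (by norm_num) rfl rfl p1_c36)
  have s37 := s36.trans (seg_of_run (k := 12) (by norm_num) rfl rfl p1_c37)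
  have s38 := s37.trans (seg_of_run (k := 12) (by norm_num) rfl rfl p1_c38)
  have s39 := s38.trans (seg_of_run (k := 12) (by norm_num) rfl rfl p1_c39)
  have s40 := s39.trans (seg_of_run (k := 12) (by norm_num) rfl rfl p1_c40)
  have s41 := s40.trans (seg_of_run (k := 12) (by norm_num) rfl rfl p1_c41)
  have s42 := s41.trans (seg_of_run (k := 12) (by norm_num) rfl rfl p1_c42)
  have s43 := s42.trans (seg_of_run (k := 12) (by norm_num) rfl rfl p1_c43)
  have s44 := s43.trans (seg_of_run (k := 12) (by norm_num) rfl rfl p1_c44)
  have s45 := s44.trans (seg_of_run (k := 12) (by norm_num) rfl rfl p1_c45)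
  have s46 := s45.trans (seg_of_run (k := 12) (by norm_num) rfl rfl p1_c46)
  have s47 := s46.trans (seg_of_run (k := 12) (by norm_num) rfl rfl p1_c47)
  have s48 := s47.trans (seg_of_run (k := 12) (by norm_num) rfl rfl p1_c48)
  have s49 := s48.trans (seg_of_run (k := 12) (by norm_num) rfl rfl p1_c49)
  have s50 := s49.trans (seg_of_run (k := 12) (by norm_num) rfl rfl p1_c50)
  have s51 := s50.trans (seg_of_run (k := 12) (by norm_num) rfl rfl p1_c51)
  have s52 := s51.trans (seg_of_run (k := 12) (by norm_num) rfl rfl p1_c52)
  exact s52

end Pool.Agent.Work.MP_8f87b2_sk.K12
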