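import Pool.Agent.Work.MP_8f87b2_sk.K12T
import Pool.Agent.Work.MP_8f87b2_sk.K12P1

/-! `O_12`: kernel run, part 3 of 4. -/

set_option maxRecDepth 100000

namespace Pool.Agent.Work.MP_8f87b2_sk.K12

open Pool.Agent.Work.MP_8f87b2_sk

theorem p2_c0 : run 33554431 25 24 4095 lk 1209771 1088981 1000 5587891 1079052 = true := by decide +kernel
theorem p2_c1 : run 33554431 25 24 4095 lk 4768495 1099184 1000 1209771 1088981 = true := by decide +kernel
theorem p2_c2 : run 33554431 25 24 4095 lk 2628343 1109437 1000 4768495 1099184 = true := by decide +kernel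
theorem p2_c3 : run 33554431 25 24 4095 lk 2345419 1119929 1000 2628343 1109437 = true := by decide +kernel
theorem p2_c4 : run 33554431 25 24 4095 lk 2319797 1130274 1000 2345419 1119929 = true := by decide +kernel
theorem p2_c5 : run 33554431 25 24 4095 lk 1001069 1140439 1000 2319797 1130274 = true := by decide +kernel
theorem p2_c6 : run 33554431 25 24 4095 lk 1229775 1150033 1000 1001069 1140439 = true := by decide +kernel
theorem p2_c7 : run 33554431 25 24 4095 lk 3174839 1161097 1000 1229775 1150033 = true := by decide +kernel
theorem p2_c8 : run 33554431 25 24 4095 lk 4875831 1171610 1000 3174839 1161097 = true := by decide +kernel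
theorem p2_c9 : run 33554431 25 24 4095 lk 1158715 1181719 1000 4875831 1171610 = true := by decide +kernel
theorem p2_c10 : run 33554431 25 24 4095 lk 1322931 1192479 1000 1158715 1181719 = true := by decide +kernel
theorem p2_c11 : run 33554431 25 24 4095 lk 2395515 1202920 1000 1322931 1192479 = true := by decide +kernel
theorem p2_c12 : run 33554431 25 24 4095 lk 554839 1214025 1000 2395515 1202920 = true := by decide +kernel
theorem p2_c13 : run 33554431 25 24 4095 lk 4529613 1224922 1000 554839 1214025 = true := by decide +kernel
theorem p2_c14 : run 33554431 25 24 4095 lk 703659 1235460 1000 4529613 1224922 = true := by decide +kernel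
theorem p2_c15 : run 33554431 25 24 4095 lk 3343215 1245779 1000 703659 1235460 = true := by decide +kernel
theorem p2_c16 : run 33554431 25 24 4095 lk 200685 1257422 1000 3343215 1245779 = true := by decide +kernel
theorem p2_c17 : run 33554431 25 24 4095 lk 4361971 1268949 1000 200685 1257422 = true := by decide +kernel
theorem p2_c18 : run 33554431 25 24 4095 lk 4507573 1280322 1000 4361971 1268949 = true := by decide +kernel
theorem p2_c19 : run 33554431 25 24 4095 lk 1587035 1291696 1000 4507573 1280322 = true := by decide +kernel
theorem p2_c20 : run 33554431 25 24 4095 lk 1714093 1302870 1000 1587035 1291696 = true := by decide +kernel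
theorem p2_c21 : run 33554431 25 24 4095 lk 2252243 1313710 1000 1714093 1302870 = true := by decide +kernel
theorem p2_c22 : run 33554431 25 24 4095 lk 4559319 1324241 1000 2252243 1313710 = true := by decide +kernel
theorem p2_c23 : run 33554431 25 24 4095 lk 4777677 1334890 1000 4559319 1324241 = true := by decide +kernel
theorem p2_c24 : run 33554431 25 24 4095 lk 4933695 1345022 1000 4777677 1334890 = true := by decide +kernel
theorem p2_c25 : run 33554431 25 24 4095 lk 1723279 1355962 1000 4933695 1345022 = true := by decide +kernel
theorem p2_c26 : run 33554431 25 24 4095 lk 1778631 1366262 1000 1723279 1355962 = true := by decide +kernel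
theorem p2_c27 : run 33554431 25 24 4095 lk 2333019 1377219 1000 1778631 1366262 = true := by decide +kernel
theorem p2_c28 : run 33554431 25 24 4095 lk 930237 1388058 1000 2333019 1377219 = true := by decide +kernel
theorem p2_c29 : run 33554431 25 24 4095 lk 4401999 1398663 1000 930237 1388058 = true := by decide +kernel
theorem p2_c30 : run 33554431 25 24 4095 lk 4222395 1408921 1000 4401999 1398663 = true := by decide +kernel
theorem p2_c31 : run 33554431 25 24 4095 lk 4499413 1419122 1000 4222395 1408921 = true := by decide +kernel
theorem p2_c32 : run 33554431 25 24 4095 lk 4380047 1429678 1000 4499413 1419122 = true := by decide +kernel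
theorem p2_c33 : run 33554431 25 24 4095 lk 3253863 1440304 1000 4380047 1429678 = true := by decide +kernel
theorem p2_c34 : run 33554431 25 24 4095 lk 4304463 1450867 1000 3253863 1440304 = true := by decide +kernel
theorem p2_c35 : run 33554431 25 24 4095 lk 2386805 1461248 1000 4304463 1450867 = true := by decide +kernel
theorem p2_c36 : run 33554431 25 24 4095 lk 1325927 1471948 1000 2386805 1461248 = true := by decide +kernel
theorem p2_c37 : run 33554431 25 24 4095 lk 4217837 1482389 1000 1325927 1471948 = true := by decide +kernel
theorem p2_c38 : run 33554431 25 24 4095 lk 5273917 1492764 1000 4217837 1482389 = true := by decide +kernel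
theorem p2_c39 : run 33554431 25 24 4095 lk 4413813 1503375 1000 5273917 1492764 = true := by decide +kernel
theorem p2_c40 : run 33554431 25 24 4095 lk 16125 1514877 1000 4413813 1503375 = true := by decide +kernel
theorem p2_c41 : run 33554431 25 24 4095 lk 4328191 1526543 1000 16125 1514877 = true := by decide +kernel
theorem p2_c42 : run 33554431 25 24 4095 lk 893503 1537390 1000 4328191 1526543 = true := by decide +kernel
theorem p2_c43 : run 33554431 25 24 4095 lk 4895949 1547923 1000 893503 1537390 = true := by decide +kernel
theorem p2_c44 : run 33554431 25 24 4095 lk 5583919 1559034 1000 4895949 1547923 = true := by decide +kernel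
theorem p2_c45 : run 33554431 25 24 4095 lk 146395 1570551 1000 5583919 1559034 = true := by decide +kernel
theorem p2_c46 : run 33554431 25 24 4095 lk 1095291 1582069 1000 146395 1570551 = true := by decide +kernel
theorem p2_c47 : run 33554431 25 24 4095 lk 963855 1592159 1000 1095291 1582069 = true := by decide +kernel
theorem p2_c48 : run 33554431 25 24 4095 lk 3171709 1601707 1000 963855 1592159 = true := by decide +kernel
theorem p2_c49 : run 33554431 25 24 4095 lk 3297743 1612021 1000 3171709 1601707 = true := by decide +kernel
theorem p2_c50 : run 33554431 25 24 4095 lk 814931 1621819 1000 3297743 1612021 = true := by decide +kernel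
theorem p2_c51 : run 33554431 25 24 4095 lk 3436775 1631895 1000 814931 1621819 = true := by decide +kernel
theorem p2_c52 : run 33554431 25 24 4095 lk 1667315 1631923 3 3436775 1631895 = true := by decide +kernel

theorem p2_seg : Seg 12 4095 lk 5587891 1079052 52003 1667315 1631923 := by
  have s0 := seg_of_run (k := 12) (by norm_num) rfl rfl p2_c0
  have s1 := s0.trans (seg_of_run (k := 12) (by norm_num) rfl rfl p2_c1)
  have s2 := s1.trans (seg_of_run (k := 12) (by norm_num) rfl rfl p2_c2)
  have s3 := s2.trans (seg_of_run (k := 12) (by norm_num) rfl rfl p2_c3)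
  have s4 := s3.trans (seg_of_run (k := 12) (by norm_num) rfl rfl p2_c4)
  have s5 := s4.trans (seg_of_run (k := 12) (by norm_num) rfl rfl p2_c5)
  have s6 := s5.trans (seg_of_run (k := 12) (by norm_num) rfl rfl p2_c6)
  have s7 := s6.trans (seg_of_run (k := 12) (by norm_num) rfl rfl p2_c7)
  have s8 := s7.trans (seg_of_run (k := 12) (by norm_num) rfl rfl p2_c8)
  have s9 := s8.trans (seg_of_run (k := 12) (by norm_num) rfl rfl p2_c9)
  have s10 := s9.trans (seg_of_run (k := 12) (by norm_num) rfl rfl p2_c10)
  have s11 := s10.trans (seg_of_run (k := 12) (by norm_num) rfl rfl p2_c11)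
  have s12 := s11.trans (seg_of_run (k := 12) (by norm_num) rfl rfl p2_c12)
  have s13 := s12.trans (seg_of_run (k := 12) (by norm_num) rfl rfl p2_c13)
  have s14 := s13.trans (seg_of_run (k := 12) (by norm_num) rfl rfl p2_c14)
  have s15 := s14.trans (seg_of_run (k := 12) (by norm_num) rfl rfl p2_c15)
  have s16 := s15.trans (seg_of_run (k := 12) (by norm_num) rfl rfl p2_c16)
  have s17 := s16.trans (seg_of_run (k := 12) (by norm_num) rfl rfl p2_c17)
  have s18 := s17.trans (seg_of_run (k := 12) (by norm_num) rfl rfl p2_c18)
  have s19 := s18.trans (seg_of_run (k := 12) (by norm_num) rfl rfl p2_c19)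
  have s20 := s19.trans (seg_of_run (k := 12) (by norm_num) rfl rfl p2_c20)
  have s21 := s20.trans (seg_of_run (k := 12) (by norm_num) rfl rfl p2_c21)
  have s22 := s21.trans (seg_of_run (k := 12) (by norm_num) rfl rfl p2_c22)
  have s23 := s22.trans (seg_of_run (k := 12) (by norm_num) rfl rfl p2_c23)
  have s24 := s23.trans (seg_of_run (k := 12) (by norm_num) rfl rfl p2_c24)
  have s25 := s24.trans (seg_of_run (k := 12) (by norm_num) rfl rfl p2_c25)
  have s26 := s25.trans (seg_of_run (k := 12) (by norm_num) rfl rfl p2_c26)
  have s27 := s26.trans (seg_of_run (k := 12) (by norm_num) rfl rfl p2_c27)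
  have s28 := s27.trans (seg_of_run (k := 12) (by norm_num) rfl rfl p2_c28)
  have s29 := s28.trans (seg_of_run (k := 12) (by norm_num) rfl rfl p2_c29)
  have s30 := s29.trans (seg_of_run (k := 12) (by norm_num) rfl rfl p2_c30)
  have s31 := s30.trans (seg_of_run (k := 12) (by norm_num) rfl rfl p2_c31)
  have s32 := s31.trans (seg_of_run (k := 12) (by norm_num) rfl rfl p2_c32)
  have s33 := s32.trans (seg_of_run (k := 12) (by norm_num) rfl rfl p2_c33)
  have s34 := s33.trans (seg_of_run (k := 12) (by norm_num) rfl rfl p2_c34)
  have s35 := s34.trans (seg_of_run (k := 12) (by norm_num) rfl rfl p2_c35)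
  have s36 := s35.trans (seg_of_run (k := 12) (by norm_num) rfl rfl p2_c36)
  have s37 := s36.trans (seg_of_run (k := 12) (by norm_num) rfl rfl p2_c37)
  have s38 := s37.trans (seg_of_run (k := 12) (by norm_num) rfl rfl p2_c38)
  have s39 := s38.trans (seg_of_run (k := 12) (by norm_num) rfl rfl p2_c39)
  have s40 := s39.trans (seg_of_run (k := 12) (by norm_num) rfl rfl p2_c40)
  have s41 := s40.trans (seg_of_run (k := 12) (by norm_num) rfl rfl p2_c41)
  have s42 := s41.trans (seg_of_run (k := 12) (by norm_num) rfl rfl p2_c42)
  have s43 := s42.trans (seg_of_run (k := 12) (by norm_num) rfl rfl p2_c43)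
  have s44 := s43.trans (seg_of_run (k := 12) (by norm_num) rfl rfl p2_c44)
  have s45 := s44.trans (seg_of_run (k := 12) (by norm_num) rfl rfl p2_c45)
  have s46 := s45.trans (seg_of_run (k := 12) (by norm_num) rfl rfl p2_c46)
  have s47 := s46.trans (seg_of_run (k := 12) (by norm_num) rfl rfl p2_c47)
  have s48 := s47.trans (seg_of_run (k := 12) (by norm_num) rfl rfl p2_c48)
  have s49 := s48.trans (seg_of_run (k := 12) (by norm_num) rfl rfl p2_c49)
  have s50 := s49.trans (seg_of_run (k := 12) (by norm_num) rfl rfl p2_c50)
  have s51 := s50.trans (seg_of_run (k := 12) (by norm_num) rfl rfl p2_c51)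
  have s52 := s51.trans (seg_of_run (k := 12) (by norm_num) rfl rfl p2_c52)
  exact s52

end Pool.Agent.Work.MP_8f87b2_sk.K12
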