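import Pool.Agent.Work.MP_8f87b2_sk.K12T
import Pool.Agent.Work.MP_8f87b2_sk.K12P2

/-! `O_12`: kernel run, part 4 of 4. -/

set_option maxRecDepth 100000

namespace Pool.Agent.Work.MP_8f87b2_sk.K12

open Pool.Agent.Work.MP_8f87b2_sk

theorem p3_c0 : run 33554431 25 24 4095 lk 1326503 1642228 1000 1667315 1631923 = true := by decide +kernel
theorem p3_c1 : run 33554431 25 24 4095 lk 2313111 1651998 1000 1326503 1642228 = true := by decide +kernel
theorem p3_c2 : run 33554431 25 24 4095 lk 2466423 1661920 1000 2313111 1651998 = true := by decide +kernel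
theorem p3_c3 : run 33554431 25 24 4095 lk 2702535 1672485 1000 2466423 1661920 = true := by decide +kernel
theorem p3_c4 : run 33554431 25 24 4095 lk 540149 1682915 1000 2702535 1672485 = true := by decide +kernel
theorem p3_c5 : run 33554431 25 24 4095 lk 2513363 1693687 1000 540149 1682915 = true := by decide +kernel
theorem p3_c6 : run 33554431 25 24 4095 lk 445901 1703752 1000 2513363 1693687 = true := by decide +kernel
theorem p3_c7 : run 33554431 25 24 4095 lk 3320627 1714243 1000 445901 1703752 = true := by decide +kernel
theorem p3_c8 : run 33554431 25 24 4095 lk 2666875 1723982 1000 3320627 1714243 = true := by decide +kernel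
theorem p3_c9 : run 33554431 25 24 4095 lk 448701 1735240 1000 2666875 1723982 = true := by decide +kernel
theorem p3_c10 : run 33554431 25 24 4095 lk 2395581 1745388 1000 448701 1735240 = true := by decide +kernel
theorem p3_c11 : run 33554431 25 24 4095 lk 683677 1755380 1000 2395581 1745388 = true := by decide +kernel
theorem p3_c12 : run 33554431 25 24 4095 lk 1266909 1765405 1000 683677 1755380 = true := by decide +kernel
theorem p3_c13 : run 33554431 25 24 4095 lk 2773933 1776099 1000 1266909 1765405 = true := by decide +kernel
theorem p3_c14 : run 33554431 25 24 4095 lk 4532147 1786816 1000 2773933 1776099 = true := by decide +kernel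
theorem p3_c15 : run 33554431 25 24 4095 lk 5413557 1797212 1000 4532147 1786816 = true := by decide +kernel
theorem p3_c16 : run 33554431 25 24 4095 lk 2329759 1807701 1000 5413557 1797212 = true := by decide +kernel
theorem p3_c17 : run 33554431 25 24 4095 lk 2105211 1817542 1000 2329759 1807701 = true := by decide +kernel
theorem p3_c18 : run 33554431 25 24 4095 lk 1386287 1828496 1000 2105211 1817542 = true := by decide +kernel
theorem p3_c19 : run 33554431 25 24 4095 lk 2479383 1838939 1000 1386287 1828496 = true := by decide +kernel
theorem p3_c20 : run 33554431 25 24 4095 lk 1239477 1849738 1000 2479383 1838939 = true := by decide +kernel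
theorem p3_c21 : run 33554431 25 24 4095 lk 696087 1860989 1000 1239477 1849738 = true := by decide +kernel
theorem p3_c22 : run 33554431 25 24 4095 lk 478395 1871654 1000 696087 1860989 = true := by decide +kernel
theorem p3_c23 : run 33554431 25 24 4095 lk 818237 1882139 1000 478395 1871654 = true := by decide +kernel
theorem p3_c24 : run 33554431 25 24 4095 lk 433271 1891280 1000 818237 1882139 = true := by decide +kernel
theorem p3_c25 : run 33554431 25 24 4095 lk 5064471 1901899 1000 433271 1891280 = true := by decide +kernel
theorem p3_c26 : run 33554431 25 24 4095 lk 1096423 1912473 1000 5064471 1901899 = true := by decide +kernel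
theorem p3_c27 : run 33554431 25 24 4095 lk 4928271 1923300 1000 1096423 1912473 = true := by decide +kernel
theorem p3_c28 : run 33554431 25 24 4095 lk 2390621 1932762 1000 4928271 1923300 = true := by decide +kernel
theorem p3_c29 : run 33554431 25 24 4095 lk 5399789 1944008 1000 2390621 1932762 = true := by decide +kernel
theorem p3_c30 : run 33554431 25 24 4095 lk 4780343 1954488 1000 5399789 1944008 = true := by decide +kernel
theorem p3_c31 : run 33554431 25 24 4095 lk 1063551 1965880 1000 4780343 1954488 = true := by decide +kernel
theorem p3_c32 : run 33554431 25 24 4095 lk 2137663 1977528 1000 1063551 1965880 = true := by decide +kernel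
theorem p3_c33 : run 33554431 25 24 4095 lk 285655 1989024 1000 2137663 1977528 = true := by decide +kernel
theorem p3_c34 : run 33554431 25 24 4095 lk 4818543 1999323 1000 285655 1989024 = true := by decide +kernel
theorem p3_c35 : run 33554431 25 24 4095 lk 2270831 2009914 1000 4818543 1999323 = true := by decide +kernel
theorem p3_c36 : run 33554431 25 24 4095 lk 3168181 2020811 1000 2270831 2009914 = true := by decide +kernel
theorem p3_c37 : run 33554431 25 24 4095 lk 3165883 2032144 1000 3168181 2020811 = true := by decide +kernel
theorem p3_c38 : run 33554431 25 24 4095 lk 677783 2043026 1000 3165883 2032144 = true := by decide +kernel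
theorem p3_c39 : run 33554431 25 24 4095 lk 504989 2052763 1000 677783 2043026 = true := by decide +kernel
theorem p3_c40 : run 33554431 25 24 4095 lk 1283293 2063363 1000 504989 2052763 = true := by decide +kernel
theorem p3_c41 : run 33554431 25 24 4095 lk 5319357 2073141 1000 1283293 2063363 = true := by decide +kernel
theorem p3_c42 : run 33554431 25 24 4095 lk 381671 2084511 1000 5319357 2073141 = true := by decide +kernel
theorem p3_c43 : run 33554431 25 24 4095 lk 2166647 2095629 1000 381671 2084511 = true := by decide +kernel
theorem p3_c44 : run 33554431 25 24 4095 lk 2478933 2106677 1000 2166647 2095629 = true := by decide +kernel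
theorem p3_c45 : run 33554431 25 24 4095 lk 1256151 2117234 1000 2478933 2106677 = true := by decide +kernel
theorem p3_c46 : run 33554431 25 24 4095 lk 246653 2127315 1000 1256151 2117234 = true := by decide +kernel
theorem p3_c47 : run 33554431 25 24 4095 lk 4888797 2137721 1000 246653 2127315 = true := by decide +kernel
theorem p3_c48 : run 33554431 25 24 4095 lk 1588439 2148470 1000 4888797 2137721 = true := by decide +kernel
theorem p3_c49 : run 33554431 25 24 4095 lk 4487411 2159705 1000 1588439 2148470 = true := by decide +kernel
theorem p3_c50 : run 33554431 25 24 4095 lk 4820315 2169178 1000 4487411 2159705 = true := by decide +kernel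
theorem p3_c51 : run 33554431 25 24 4095 lk 8127 2178360 1000 4820315 2169178 = true := by decide +kernel
theorem p3_c52 : run 33554431 25 24 4095 lk 8063 2178384 2 8127 2178360 = true := by decide +kernel

theorem p3_seg : Seg 12 4095 lk 1667315 1631923 52002 8063 2178384 := by
  have s0 := seg_of_run (k := 12) (by norm_num) rfl rfl p3_c0
  have s1 := s0.trans (seg_of_run (k := 12) (by norm_num) rfl rfl p3_c1)
  have s2 := s1.trans (seg_of_run (k := 12) (by norm_num) rfl rfl p3_c2)
  have s3 := s2.trans (seg_of_run (k := 12) (by norm_num) rfl rfl p3_c3)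
  have s4 := s3.trans (seg_of_run (k := 12) (by norm_num) rfl rfl p3_c4)
  have s5 := s4.trans (seg_of_run (k := 12) (by norm_num) rfl rfl p3_c5)
  have s6 := s5.trans (seg_of_run (k := 12) (by norm_num) rfl rfl p3_c6)
  have s7 := s6.trans (seg_of_run (k := 12) (by norm_num) rfl rfl p3_c7)
  have s8 := s7.trans (seg_of_run (k := 12) (by norm_num) rfl rfl p3_c8)
  have s9 := s8.trans (seg_of_run (k := 12) (by norm_num) rfl rfl p3_c9)
  have s10 := s9.trans (seg_of_run (k := 12) (by norm_num) rfl rfl p3_c10)
  have s11 := s10.trans (seg_of_run (k := 12) (by norm_num) rfl rfl p3_c11)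
  have s12 := s11.trans (seg_of_run (k := 12) (by norm_num) rfl rfl p3_c12)
  have s13 := s12.trans (seg_of_run (k := 12) (by norm_num) rfl rfl p3_c13)
  have s14 := s13.trans (seg_of_run (k := 12) (by norm_num) rfl rfl p3_c14)
  have s15 := s14.trans (seg_of_run (k := 12) (by norm_num) rfl rfl p3_c15)
  have s16 := s15.trans (seg_of_run (k := 12) (by norm_num) rfl rfl p3_c16)
  have s17 := s16.trans (seg_of_run (k := 12) (by norm_num) rfl rfl p3_c17)
  have s18 := s17.trans (seg_of_run (k := 12) (by norm_num) rfl rfl p3_c18)
  have s19 := s18.trans (seg_of_run (k := 12) (by norm_num) rfl rfl p3_c19)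
  have s20 := s19.trans (seg_of_run (k := 12) (by norm_num) rfl rfl p3_c20)
  have s21 := s20.trans (seg_of_run (k := 12) (by norm_num) rfl rfl p3_c21)
  have s22 := s21.trans (seg_of_run (k := 12) (by norm_num) rfl rfl p3_c22)
  have s23 := s22.trans (seg_of_run (k := 12) (by norm_num) rfl rfl p3_c23)
  have s24 := s23.trans (seg_of_run (k := 12) (by norm_num) rfl rfl p3_c24)
  have s25 := s24.trans (seg_of_run (k := 12) (by norm_num) rfl rfl p3_c25)
  have s26 := s25.trans (seg_of_run (k := 12) (by norm_num) rfl rfl p3_c26)
  have s27 := s26.trans (seg_of_run (k := 12) (by norm_num) rfl rfl p3_c27)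
  have s28 := s27.trans (seg_of_run (k := 12) (by norm_num) rfl rfl p3_c28)
  have s29 := s28.trans (seg_of_run (k := 12) (by norm_num) rfl rfl p3_c29)
  have s30 := s29.trans (seg_of_run (k := 12) (by norm_num) rfl rfl p3_c30)
  have s31 := s30.trans (seg_of_run (k := 12) (by norm_num) rfl rfl p3_c31)
  have s32 := s31.trans (seg_of_run (k := 12) (by norm_num) rfl rfl p3_c32)
  have s33 := s32.trans (seg_of_run (k := 12) (by norm_num) rfl rfl p3_c33)
  have s34 := s33.trans (seg_of_run (k := 12) (by norm_num) rfl rfl p3_c34)
  have s35 := s34.trans (seg_of_run (k := 12) (by norm_num) rfl rfl p3_c35)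
  have s36 := s35.trans (seg_of_run (k := 12) (by norm_num) rfl rfl p3_c36)
  have s37 := s36.trans (seg_of_run (k := 12) (by norm_num) rfl rfl p3_c37)
  have s38 := s37.trans (seg_of_run (k := 12) (by norm_num) rfl rfl p3_c38)
  have s39 := s38.trans (seg_of_run (k := 12) (by norm_num) rfl rfl p3_c39)
  have s40 := s39.trans (seg_of_run (k := 12) (by norm_num) rfl rfl p3_c40)
  have s41 := s40.trans (seg_of_run (k := 12) (by norm_num) rfl rfl p3_c41)
  have s42 := s41.trans (seg_of_run (k := 12) (by norm_num) rfl rfl p3_c42)
  have s43 := s42.trans (seg_of_run (k := 12) (by norm_num) rfl rfl p3_c43)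
  have s44 := s43.trans (seg_of_run (k := 12) (by norm_num) rfl rfl p3_c44)
  have s45 := s44.trans (seg_of_run (k := 12) (by norm_num) rfl rfl p3_c45)
  have s46 := s45.trans (seg_of_run (k := 12) (by norm_num) rfl rfl p3_c46)
  have s47 := s46.trans (seg_of_run (k := 12) (by norm_num) rfl rfl p3_c47)
  have s48 := s47.trans (seg_of_run (k := 12) (by norm_num) rfl rfl p3_c48)
  have s49 := s48.trans (seg_of_run (k := 12) (by norm_num) rfl rfl p3_c49)
  have s50 := s49.trans (seg_of_run (k := 12) (by norm_num) rfl rfl p3_c50)
  have s51 := s50.trans (seg_of_run (k := 12) (by norm_num) rfl rfl p3_c51)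
  have s52 := s51.trans (seg_of_run (k := 12) (by norm_num) rfl rfl p3_c52)
  exact s52

end Pool.Agent.Work.MP_8f87b2_sk.K12
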