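import Pool.Agent.Work.MP_8f87b2_sk.K12P0
import Pool.Agent.Work.MP_8f87b2_sk.K12P1
import Pool.Agent.Work.MP_8f87b2_sk.K12P2
import Pool.Agent.Work.MP_8f87b2_sk.K12P3

/-! `O_12`: kernel computation of a shift-invariant Hamilton cycle. -/

set_option maxRecDepth 100000

namespace Pool.Agent.Work.MP_8f87b2_sk.K12

open Pool.Agent.Work.MP_8f87b2_sk

theorem last : run 33554431 25 24 16777216 lk 4095 2178397 1 8063 2178384 = true := by decide +kernel

theorem hamShift : HamShift 12 := by
  have s0 := p0_seg
  have s1 := s0.trans p1_seg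
  have s2 := s1.trans p2_seg
  have s3 := s2.trans p3_seg
  exact hamShift_of_seg (w1 := 16777216) s3 (seg_of_run (k := 12) (by norm_num) rfl rfl last) (by decide +kernel) (by decide +kernel) (by norm_num)

end Pool.Agent.Work.MP_8f87b2_sk.K12
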