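import Pool.Agent.Work.MP_8f87b2_sk.SK

/-! `O_4`: kernel computation of a shift-invariant Hamilton cycle. -/

set_option maxRecDepth 100000

namespace Pool.Agent.Work.MP_8f87b2_sk.K4

open Pool.Agent.Work.MP_8f87b2_sk

/-- the exceptional words, hashed -/
def lk (w : ℕ) : ℕ := lkT 0x1d1189ce400000d447532180000000006cc70000000003340d54c82d4143ce5 5 54 262144 w

theorem c0 : run 511 9 8 15 lk 29 51 13 15 0 = true := by decide +kernel
theorem last : run 511 9 8 256 lk 15 56 1 29 51 = true := by decide +kernel

theorem seg : Seg 4 15 lk 15 0 13 29 51 := by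
  have s0 := seg_of_run (k := 4) (by norm_num) rfl rfl c0
  exact s0

theorem hamShift : HamShift 4 :=
  hamShift_of_seg (w1 := 256) seg (seg_of_run (k := 4) (by norm_num) rfl rfl last) (by decide +kernel) (by decide +kernel) (by norm_num)

end Pool.Agent.Work.MP_8f87b2_sk.K4
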