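import Pool.Agent.Work.MP_8f87b2_sk.SK

/-! `O_5`: kernel computation of a shift-invariant Hamilton cycle. -/

set_option maxRecDepth 100000

namespace Pool.Agent.Work.MP_8f87b2_sk.K5

open Pool.Agent.Work.MP_8f87b2_sk

/-- the exceptional words, hashed -/
def lk (w : ℕ) : ℕ := lkT 0x1b528474460000049ca707ce646d0651d4425d240000000000334a9000000000000000000000000032c65355494b4a719c88000005350a0bd250000034d434ad0a000004d50a26ce9554860dc8723d45 11 60 1048576 w

theorem c0 : run 2047 11 10 31 lk 55 205 41 31 0 = true := by decide +kernel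
theorem last : run 2047 11 10 1024 lk 31 211 1 55 205 = true := by decide +kernel

theorem seg : Seg 5 31 lk 31 0 41 55 205 := by
  have s0 := seg_of_run (k := 5) (by norm_num) rfl rfl c0
  exact s0

theorem hamShift : HamShift 5 :=
  hamShift_of_seg (w1 := 1024) seg (seg_of_run (k := 5) (by norm_num) rfl rfl last) (by decide +kernel) (by decide +kernel) (by norm_num)

end Pool.Agent.Work.MP_8f87b2_sk.K5
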