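import Pool.Agent.Work.MP_8f87b2_sk.SK

/-! `O_6`: kernel computation of a shift-invariant Hamilton cycle. -/

set_option maxRecDepth 100000

namespace Pool.Agent.Work.MP_8f87b2_sk.K6

open Pool.Agent.Work.MP_8f87b2_sk

/-- the exceptional words, hashed -/
def lk (w : ℕ) : ℕ := lkT 0x143d45000000000000bb3a400000000000000002d512471d84527390000004d53246ad8a00000000000000000000000000004f567000000a6d8615732000000000000ad5870000012d58707d6200000035512cacd830000015554c07b1a00000049761017d2600000154c860af514000004cb60c5ad880000000000025d1180000053511cab4a733321c96cc803f41c675861d33294cd4c0000000000054d614000000000004bd85000000000000000000000000000115d44000000cb4454a729c0000000000065d840000000000032b60c000000f31a4c3d05 27 66 4194304 w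

theorem c0 : run 8191 13 12 63 lk 123 693 131 63 0 = true := by decide +kernel
theorem last : run 8191 13 12 4096 lk 63 700 1 123 693 = true := by decide +kernel

theorem seg : Seg 6 63 lk 63 0 131 123 693 := by
  have s0 := seg_of_run (k := 6) (by norm_num) rfl rfl c0
  exact s0

theorem hamShift : HamShift 6 :=
  hamShift_of_seg (w1 := 4096) seg (seg_of_run (k := 6) (by norm_num) rfl rfl last) (by decide +kernel) (by decide +kernel) (by norm_num)

end Pool.Agent.Work.MP_8f87b2_sk.K6
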