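import Pool.Agent.Work.MP_8f87b2_sk.SK

/-! `O_7`: kernel computation of a shift-invariant Hamilton cycle. -/

set_option maxRecDepth 100000

namespace Pool.Agent.Work.MP_8f87b2_sk.K7

open Pool.Agent.Work.MP_8f87b2_sk

/-- the exceptional words, hashed -/
def lk (w : ℕ) : ℕ := lkT 0x552cc8496d8605dd680000000000000000002b4c8900000000000000000000000000000000000045b4485175460000004ad5c734cd4d551d040000000f55cb516dc60aec670000004375894acc8744ed870000000f4c8b2cad0b471c8a000000000000436d89465d840000000dcc8b515d4404fdc70000001755ca34b5c528f56700000000000000000000000000000000000000000000000026b44a3275c6139dc901fd2800000000000031b5c8332dc3000000000000000000299dc400000000000000000000000000000052b58e07cdca0abce9000000000000000000331cc90000004b548923adc90f1ccb00000027548a15b5c809f448000000000000000000427dc600000000000000000015adc800000007b5ca49cdc8239dc906f5ca54cdc322ddc7057d6600000000000000000046d44a00000000000000000051d5c800000000000000000000000000000000000027344a51cc880000000000004b2d8e135dc90000000000000000000000000000000000002ad4e949adc800000000000053344554ad8e00000000000000000052744600000000000000000051b5c800000000000050f587236dc90000001b548c32d487549dc400000000000000000055558e000000000000000000156da62ab5c5554dc3525dc4293dc500000047544a19cdc8343d4500000000000000000050dd870000000000000000000000000000000000004c6d8602fce90000002cd50b1b34cc1cad0c5534454974462a9ca724bdc50000000000002b54492575c6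 47 96 16777216 w

theorem c0 : run 32767 15 14 127 lk 191 2621 428 127 0 = true := by decide +kernel
theorem last : run 32767 15 14 16384 lk 127 2629 1 191 2621 = true := by decide +kernel

theorem seg : Seg 7 127 lk 127 0 428 191 2621 := by
  have s0 := seg_of_run (k := 7) (by norm_num) rfl rfl c0
  exact s0

theorem hamShift : HamShift 7 :=
  hamShift_of_seg (w1 := 16384) seg (seg_of_run (k := 7) (by norm_num) rfl rfl last) (by decide +kernel) (by decide +kernel) (by norm_num)

end Pool.Agent.Work.MP_8f87b2_sk.K7
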