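import Mathlib

/-!
MP_8f87b2_co, small `k`: a Hamilton cycle of the odd graph `O_k` which is invariant under the cyclic shift, from a kernel
computation with bit masks. A vertex is `S k w s` (`w` a balanced word of `2 k` bits with non-negative prefix sums, the position
`s` of the unmatched zero); the rule `w ↦ (w', d)` is any function of `w`, its single steps are checked, and the first return to
`w0` after `Catalan(k)` steps is checked.
-/

namespace Pool.Agent.Work.MP_8f87b2_sk

open Finset

/-- `O_k` has a Hamilton cycle which is invariant under the shift of `ZMod (2 k + 1)`, as a periodic sequence of `k`-subsets. -/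
def HamShift (k : ℕ) : Prop :=
  ∃ (x : ℕ → Finset (ZMod (2 * k + 1))) (N v : ℕ), N * (2 * k + 1) = Nat.choose (2 * k + 1) k ∧
    Nat.Coprime v (2 * k + 1) ∧ (∀ i, (x i).card = k) ∧ (∀ i, Disjoint (x i) (x (i + 1))) ∧
    (∀ i, x (i + N) = (x i).image (fun a => a + (v : ZMod (2 * k + 1)))) ∧
    ∀ i j, i < j → j < N * (2 * k + 1) → x i ≠ x j

/-! ### The kernel functions -/

/-- `0` if a prefix of the `f` lowest bits of `w` (starting from the height `h`) is negative or the end is not `0`, otherwise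
the stored position `bp` of the first maximum. -/
def scan (f : ℕ) : ℕ → ℕ → ℕ → ℕ → ℕ → ℕ :=
  Nat.rec (motive := fun _ => ℕ → ℕ → ℕ → ℕ → ℕ → ℕ)
    (fun _ h _ _ bp => cond (Nat.beq h 0) bp 0)
    (fun _ ih w h p b bp =>
      cond (Nat.beq (Nat.mod w 2) 1)
        (cond (Nat.ble b h) (ih (Nat.div w 2) (Nat.add h 1) (Nat.add p 1) (Nat.add h 1) p)
          (ih (Nat.div w 2) (Nat.add h 1) (Nat.add p 1) b bp))
        (cond (Nat.beq h 0) 0 (ih (Nat.div w 2) (Nat.sub h 1) (Nat.add p 1) b bp))) f

/-- forces the evaluation of `x` -/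
def force (x : ℕ) (g : ℕ → Bool) : Bool :=
  Nat.rec (motive := fun _ => Bool) (g 0) (fun m _ => g (Nat.succ m)) x

theorem force_eq (x : ℕ) (g : ℕ → Bool) : force x g = g x := by
  cases x <;> rfl

/-- the next word: complement of `2 w + 2^q` on `n = K2 + 1` bits (`full = 2^n - 1`), cut at `d` -/
def nxt (full K2 w q d : ℕ) : ℕ :=
  let y := Nat.sub (Nat.sub full (Nat.mul 2 w)) (Nat.pow 2 q)
  Nat.lor (Nat.shiftRight y (Nat.add d 1)) (Nat.shiftLeft (Nat.land y (Nat.sub (Nat.pow 2 d) 1)) (Nat.sub K2 d))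

/-- the word `2 w` turned by `d` places on `n` bits -/
def rot (n w d : ℕ) : ℕ := Nat.lor (Nat.shiftLeft (Nat.mul 2 w) d) (Nat.shiftRight (Nat.mul 2 w) (Nat.sub n d))

/-- the displacement -/
def nd (K2 : ℕ) (lk : ℕ → ℕ) (w : ℕ) : ℕ :=
  cond (Nat.beq (lk w) 0) (scan K2 w 0 1 0 0) (Nat.mod (Nat.sub (lk w) 1) 32)

/-- the next word -/
def nw (full K2 : ℕ) (lk : ℕ → ℕ) (w : ℕ) : ℕ :=
  cond (Nat.beq (lk w) 0) (nxt full K2 w 0 (scan K2 w 0 1 0 0))
    (nxt full K2 w (Nat.div (Nat.sub (lk w) 1) 32) (Nat.mod (Nat.sub (lk w) 1) 32))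

/-- one checked step followed by `ih` -/
def body (full n K2 w0 : ℕ) (ih : ℕ → ℕ → Bool) (w v q d : ℕ) : Bool :=
  force (nxt full K2 w q d) fun w' =>
    cond (Nat.beq (Nat.land (Nat.mul 2 w) (rot n w' d)) 0)
      (cond (Nat.ble d K2) (cond (Nat.beq w' w0) false (ih w' (Nat.add v d))) false) false

/-- `f` checked steps, the end must be `(tw, tv)` -/
def run (full n K2 w0 : ℕ) (lk : ℕ → ℕ) (tw tv : ℕ) (f : ℕ) : ℕ → ℕ → Bool :=
  Nat.rec (motive := fun _ => ℕ → ℕ → Bool) (fun w v => cond (Nat.beq w tw) (Nat.beq v tv) false)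
    (fun _ ih w v =>
      force w fun w => force v fun v => force (scan K2 w 0 1 0 0) fun b =>
        cond (Nat.beq b 0) false
          (force (lk w) fun c =>
            cond (Nat.beq c 0) (body full n K2 w0 ih w v 0 b)
              (body full n K2 w0 ih w v (Nat.div (Nat.sub c 1) 32) (Nat.mod (Nat.sub c 1) 32)))) f

/-! ### Heights and balanced words -/

/-- height after `j` bits -/
def ht (w : ℕ) (j : ℕ) : ℤ := ∑ i ∈ range j, (if w.testBit i then 1 else -1)

/-- balanced word of `m` bits with non-negative prefixes -/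
def Dy (m w : ℕ) : Prop := (∀ j ≤ m, 0 ≤ ht w j) ∧ ht w m = 0

theorem ht_succ' (w j : ℕ) : ht w (j + 1) = (if w.testBit 0 then 1 else -1) + ht (w / 2) j := by
  unfold ht
  rw [Finset.sum_range_succ']
  rw [add_comm]
  congr 1
  apply Finset.sum_congr rfl
  intro i _
  rw [Nat.testBit_succ]

theorem scan_zero (w h p b bp : ℕ) : scan 0 w h p b bp = cond (Nat.beq h 0) bp 0 := rfl

theorem scan_succ (f w h p b bp : ℕ) : scan (f + 1) w h p b bp =
    cond (Nat.beq (Nat.mod w 2) 1)
        (cond (Nat.ble b h) (scan f (Nat.div w 2) (Nat.add h 1) (Nat.add p 1) (Nat.add h 1) p)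
          (scan f (Nat.div w 2) (Nat.add h 1) (Nat.add p 1) b bp))
        (cond (Nat.beq h 0) 0 (scan f (Nat.div w 2) (Nat.sub h 1) (Nat.add p 1) b bp)) := rfl

theorem scan_spec : ∀ (f w h p b bp : ℕ), scan f w h p b bp ≠ 0 →
    (∀ j ≤ f, 0 ≤ (h : ℤ) + ht w j) ∧ (h : ℤ) + ht w f = 0 := by
  intro f
  induction f with
  | zero =>
    intro w h p b bp hs
    rw [scan_zero] at hs
    have hh : h = 0 := by
      by_contra hne
      have : Nat.beq h 0 = false := by
        cases hb : Nat.beq h 0 with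
        | false => rfl
        | true => exact absurd (Nat.eq_of_beq_eq_true hb) hne
      rw [this] at hs
      exact hs rfl
    subst hh
    refine ⟨?_, by simp [ht]⟩
    intro j hj
    have : j = 0 := by omega
    subst this
    simp [ht]
  | succ f ih =>
    intro w h p b bp hs
    rw [scan_succ] at hs
    have key : ∀ e : ℤ, (if w.testBit 0 then (1 : ℤ) else -1) = e → (∀ h' : ℕ, (h' : ℤ) = h + e →
        ((∀ j ≤ f, 0 ≤ (h' : ℤ) + ht (w / 2) j) ∧ (h' : ℤ) + ht (w / 2) f = 0) →
        (∀ j ≤ f + 1, 0 ≤ (h : ℤ) + ht w j) ∧ (h : ℤ) + ht w (f + 1) = 0) := by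
      intro e he h' hh' ⟨h1, h2⟩
      refine ⟨?_, ?_⟩
      · intro j hj
        rcases j with _ | j
        · simp [ht]
        · rw [ht_succ', he]
          have := h1 j (by omega)
          rw [hh'] at this
          linarith
      · rw [ht_succ', he]
        rw [hh'] at h2
        linarith
    by_cases hw : w % 2 = 1
    · have hb : Nat.beq (Nat.mod w 2) 1 = true := by
        have : Nat.mod w 2 = 1 := hw
        rw [this]; rfl
      rw [hb] at hs
      simp only [cond_true] at hs
      have ht0 : w.testBit 0 = true := by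
        rw [Nat.testBit_zero]; simp [hw]
      cases hc : Nat.ble b h with
      | true =>
        rw [hc] at hs
        exact key 1 (by rw [ht0]; rfl) (h + 1) (by push_cast; ring) (ih _ _ _ _ _ hs)
      | false =>
        rw [hc] at hs
        exact key 1 (by rw [ht0]; rfl) (h + 1) (by push_cast; ring) (ih _ _ _ _ _ hs)
    · have hb : Nat.beq (Nat.mod w 2) 1 = false := by
        cases hb : Nat.beq (Nat.mod w 2) 1 with
        | false => rfl
        | true => exact absurd (Nat.eq_of_beq_eq_true hb) hw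
      rw [hb] at hs
      simp only [cond_false] at hs
      have ht0 : w.testBit 0 = false := by
        rw [Nat.testBit_zero]; simp [hw]
      cases hc : Nat.beq h 0 with
      | true =>
        rw [hc] at hs
        exact absurd rfl hs
      | false =>
        rw [hc] at hs
        have hpos : 0 < h := by
          rcases Nat.eq_zero_or_pos h with h0 | h0
          · subst h0; exact absurd hc (by decide)
          · exact h0
        exact key (-1) (by rw [ht0]; rfl) (h - 1) (by
          have : ((h - 1 : ℕ) : ℤ) = (h : ℤ) - 1 := by omega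
          rw [this]; ring) (ih _ _ _ _ _ hs)

/-- number of ones -/
theorem card_of_ht (m w : ℕ) : ((((range m).filter (fun i => w.testBit i)).card : ℕ) : ℤ) * 2 = m + ht w m := by
  induction m with
  | zero => simp [ht]
  | succ m ih =>
    rw [Finset.range_add_one, Finset.filter_insert]
    have h2 : ht w (m + 1) = ht w m + (if w.testBit m then 1 else -1) := by
      unfold ht; rw [Finset.sum_range_succ]
    by_cases hb : w.testBit m = true
    · rw [if_pos hb, Finset.card_insert_of_notMem (by simp), h2, if_pos hb]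
      push_cast
      linarith
    · rw [if_neg hb, h2, if_neg hb]
      push_cast
      linarith

/-! ### The sets -/

/-- the vertex with word `w` and unmatched zero `s` -/
def S (k w : ℕ) (s : ZMod (2 * k + 1)) : Finset (ZMod (2 * k + 1)) :=
  ((range (2 * k)).filter (fun i => w.testBit i)).image (fun i : ℕ => s + 1 + (i : ZMod (2 * k + 1)))

theorem cast_inj {n a b : ℕ} (ha : a < n) (hb : b < n) (h : (a : ZMod n) = (b : ZMod n)) : a = b := by
  have := (ZMod.natCast_eq_natCast_iff' a b n).1 h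
  rwa [Nat.mod_eq_of_lt ha, Nat.mod_eq_of_lt hb] at this

theorem S_card {k w : ℕ} (s : ZMod (2 * k + 1)) (hw : Dy (2 * k) w) : (S k w s).card = k := by
  unfold S
  rw [Finset.card_image_of_injOn]
  · have := card_of_ht (2 * k) w
    rw [hw.2] at this
    push_cast at this
    omega
  · intro a ha b hb hab
    simp only [Finset.coe_filter, Finset.mem_range, Set.mem_ofPred_eq] at ha hb
    have : (a : ZMod (2 * k + 1)) = (b : ZMod (2 * k + 1)) := by simpa using hab
    exact cast_inj (by omega) (by omega) this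

theorem mem_S {k w : ℕ} {s e : ZMod (2 * k + 1)} :
    e ∈ S k w s ↔ ∃ i, i < 2 * k ∧ w.testBit i = true ∧ e = s + 1 + (i : ZMod (2 * k + 1)) := by
  unfold S
  simp only [Finset.mem_image, Finset.mem_filter, Finset.mem_range]
  constructor
  · rintro ⟨i, ⟨h1, h2⟩, h3⟩
    exact ⟨i, h1, h2, h3.symm⟩
  · rintro ⟨i, h1, h2, h3⟩
    exact ⟨i, ⟨h1, h2⟩, h3.symm⟩

theorem mem_S_iff {k w : ℕ} {s : ZMod (2 * k + 1)} {i : ℕ} (hi : i < 2 * k) :
    s + 1 + (i : ZMod (2 * k + 1)) ∈ S k w s ↔ w.testBit i = true := by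
  rw [mem_S]
  constructor
  · rintro ⟨j, hj, hb, he⟩
    have : (i : ZMod (2 * k + 1)) = (j : ZMod (2 * k + 1)) := by simpa using he
    have := cast_inj (by omega) (by omega) this
    subst this; exact hb
  · intro hb
    exact ⟨i, hi, hb, rfl⟩

theorem star_not_mem {k w : ℕ} (s : ZMod (2 * k + 1)) : s ∉ S k w s := by
  rw [mem_S]
  rintro ⟨i, hi, -, he⟩
  have h1 : ((1 + i : ℕ) : ZMod (2 * k + 1)) = ((0 : ℕ) : ZMod (2 * k + 1)) := by
    push_cast
    have : s + 0 = s + (1 + (i : ZMod (2 * k + 1))) := by rw [add_zero, ← add_assoc]; exact he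
    exact (add_left_cancel this).symm
  have := cast_inj (by omega) (by omega) h1
  omega

/-- sum of the signs of a set over an interval of the ring -/
def sg {n : ℕ} (X : Finset (ZMod n)) (a : ZMod n) (m : ℕ) : ℤ :=
  ∑ i ∈ range m, (if a + (i : ZMod n) ∈ X then 1 else -1)

theorem sg_add {n : ℕ} (X : Finset (ZMod n)) (a : ZMod n) (l m : ℕ) :
    sg X a (l + m) = sg X a l + sg X (a + l) m := by
  unfold sg
  rw [Finset.sum_range_add]
  congr 1
  apply Finset.sum_congr rfl
  intro i _
  have : a + ((l + i : ℕ) : ZMod n) = a + (l : ZMod n) + (i : ZMod n) := by push_cast; ring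
  rw [this]

theorem sg_S {k w : ℕ} (s : ZMod (2 * k + 1)) {j : ℕ} (hj : j ≤ 2 * k) : sg (S k w s) (s + 1) j = ht w j := by
  unfold sg ht
  apply Finset.sum_congr rfl
  intro i hi
  rw [Finset.mem_range] at hi
  by_cases hb : w.testBit i = true
  · rw [if_pos hb, if_pos ((mem_S_iff (by omega)).2 hb)]
  · rw [if_neg hb, if_neg (fun h => hb ((mem_S_iff (by omega)).1 h))]

/-- cycle lemma: the unmatched zero is unique -/
theorem star_unique {k w w' : ℕ} {s s' : ZMod (2 * k + 1)} (hw : Dy (2 * k) w) (hw' : Dy (2 * k) w')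
    (h : S k w s = S k w' s') : s = s' := by
  by_contra hne
  -- `s' = s + 1 + j`, `j < 2 k`
  obtain ⟨j, hj, hs'⟩ : ∃ j, j < 2 * k ∧ s' = s + 1 + (j : ZMod (2 * k + 1)) := by
    refine ⟨(s' - s - 1).val, ?_, ?_⟩
    · have h1 : (s' - s - 1).val < 2 * k + 1 := ZMod.val_lt _
      have h2 : (s' - s - 1).val ≠ 2 * k := by
        intro he
        have h3 : (((s' - s - 1).val : ℕ) : ZMod (2 * k + 1)) = ((2 * k : ℕ) : ZMod (2 * k + 1)) := by rw [he]
        rw [ZMod.natCast_zmod_val] at h3
        have h4 : ((2 * k + 1 : ℕ) : ZMod (2 * k + 1)) = 0 := ZMod.natCast_self _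
        apply hne
        push_cast at h3 h4
        have : s' - s = 0 := by linear_combination h3 + h4
        exact (sub_eq_zero.1 this).symm
      omega
    · rw [ZMod.natCast_zmod_val]; ring
  -- two prefixes
  have a1 : sg (S k w s) (s + 1) (j + 1) = ht w (j + 1) := sg_S s (by omega)
  have a2 : sg (S k w' s') (s' + 1) (2 * k - j) = ht w' (2 * k - j) := sg_S s' (by omega)
  have p1 := hw.1 (j + 1) (by omega)
  have p2 := hw'.1 (2 * k - j) (by omega)
  -- total
  have t1 : sg (S k w s) (s + 1) (2 * k + 1) = -1 := by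
    have h1 := sg_add (S k w s) (s + 1) (2 * k) 1
    rw [sg_S s le_rfl, hw.2] at h1
    rw [h1]
    unfold sg
    have h2 : s + 1 + ((2 * k : ℕ) : ZMod (2 * k + 1)) = s := by
      have h4 : ((2 * k + 1 : ℕ) : ZMod (2 * k + 1)) = 0 := ZMod.natCast_self _
      push_cast at h4 ⊢
      linear_combination h4
    rw [h2]
    simp [star_not_mem]
  have e1 : 2 * k + 1 = (j + 1) + (2 * k - j) := by omega
  have t2 := sg_add (S k w s) (s + 1) (j + 1) (2 * k - j)
  rw [← e1, t1, a1] at t2
  have e2 : s + 1 + ((j + 1 : ℕ) : ZMod (2 * k + 1)) = s' + 1 := by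
    rw [hs']; push_cast; ring
  rw [e2, h, a2] at t2
  linarith

theorem word_unique {k w w' : ℕ} {s : ZMod (2 * k + 1)} (hw : w < 2 ^ (2 * k)) (hw' : w' < 2 ^ (2 * k))
    (h : S k w s = S k w' s) : w = w' := by
  apply Nat.eq_of_testBit_eq
  intro i
  by_cases hi : i < 2 * k
  · have h1 := mem_S_iff (k := k) (w := w) (s := s) hi
    have h2 := mem_S_iff (k := k) (w := w') (s := s) hi
    rw [h] at h1
    have : w.testBit i = true ↔ w'.testBit i = true := h1.symm.trans h2
    cases ha : w.testBit i <;> cases hb : w'.testBit i <;> simp_all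
  · have hp : 2 ^ (2 * k) ≤ 2 ^ i := Nat.pow_le_pow_right (by norm_num) (by omega)
    rw [Nat.testBit_lt_two_pow (lt_of_lt_of_le hw hp), Nat.testBit_lt_two_pow (lt_of_lt_of_le hw' hp)]

theorem disj_of_land {k w w' d : ℕ} (s : ZMod (2 * k + 1)) (hd : d ≤ 2 * k + 1)
    (h : Nat.land (Nat.mul 2 w) (rot (2 * k + 1) w' d) = 0) :
    Disjoint (S k w s) (S k w' (s + (d : ZMod (2 * k + 1)))) := by
  rw [Finset.disjoint_left]
  intro e he he'
  obtain ⟨i, hi, hb, h1⟩ := mem_S.1 he
  obtain ⟨j, hj, hb', h2⟩ := mem_S.1 he'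
  have h3 : ((1 + i : ℕ) : ZMod (2 * k + 1)) = ((d + 1 + j : ℕ) : ZMod (2 * k + 1)) := by
    push_cast
    have : s + (1 + (i : ZMod (2 * k + 1))) = s + ((d : ZMod (2 * k + 1)) + 1 + (j : ZMod (2 * k + 1))) := by
      rw [← add_assoc, ← h1, h2]; ring
    exact add_left_cancel this
  have h4 : (1 + i) % (2 * k + 1) = (d + 1 + j) % (2 * k + 1) := (ZMod.natCast_eq_natCast_iff' _ _ _).1 h3
  have ht : (Nat.land (Nat.mul 2 w) (rot (2 * k + 1) w' d)).testBit (1 + i) = true := by
    have e1 : (Nat.mul 2 w).testBit (1 + i) = true := by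
      show (2 * w).testBit (1 + i) = true
      rw [Nat.add_comm, Nat.testBit_succ]
      rw [Nat.mul_div_cancel_left _ (by norm_num : 0 < 2)]
      exact hb
    have e2 : (rot (2 * k + 1) w' d).testBit (1 + i) = true := by
      have e3 : (2 * w').testBit (1 + j) = true := by
        rw [Nat.add_comm, Nat.testBit_succ]
        rw [Nat.mul_div_cancel_left _ (by norm_num : 0 < 2)]
        exact hb'
      show ((2 * w') <<< d ||| (2 * w') >>> (2 * k + 1 - d)).testBit (1 + i) = true
      rw [Nat.testBit_or, Nat.testBit_shiftLeft, Nat.testBit_shiftRight]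
      rw [Nat.mod_eq_of_lt (by omega : 1 + i < 2 * k + 1)] at h4
      by_cases hc : d + 1 + j < 2 * k + 1
      · rw [Nat.mod_eq_of_lt hc] at h4
        have : 1 + i - d = 1 + j := by omega
        rw [this, e3]
        have : d ≤ 1 + i := by omega
        simp [this]
      · have h5 : (d + 1 + j) % (2 * k + 1) = d + 1 + j - (2 * k + 1) := by
          rw [Nat.mod_eq_sub_mod (by omega)]
          exact Nat.mod_eq_of_lt (by omega)
        rw [h5] at h4
        have : 2 * k + 1 - d + (1 + i) = 1 + j := by omega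
        rw [this, e3]
        simp
    show ((Nat.mul 2 w) &&& (rot (2 * k + 1) w' d)).testBit (1 + i) = true
    rw [Nat.testBit_and, e1, e2]
    rfl
  rw [h] at ht
  simp at ht

/-! ### Soundness of the kernel run -/

section run

variable (full n K2 w0 : ℕ) (lk : ℕ → ℕ)

/-- one step on pairs (word, displacement) -/
def st (p : ℕ × ℕ) : ℕ × ℕ := (nw full K2 lk p.1, p.2 + nd K2 lk p.1)

/-- the step from `w` is legal -/
def ok (w : ℕ) : Prop :=
  scan K2 w 0 1 0 0 ≠ 0 ∧ Nat.land (Nat.mul 2 w) (rot n (nw full K2 lk w) (nd K2 lk w)) = 0 ∧ nd K2 lk w ≤ K2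

theorem run_zero (tw tv w v : ℕ) : run full n K2 w0 lk tw tv 0 w v = cond (Nat.beq w tw) (Nat.beq v tv) false := rfl

theorem run_succ (tw tv f w v : ℕ) : run full n K2 w0 lk tw tv (f + 1) w v =
      force w fun w => force v fun v => force (scan K2 w 0 1 0 0) fun b =>
        cond (Nat.beq b 0) false
          (force (lk w) fun c =>
            cond (Nat.beq c 0) (body full n K2 w0 (run full n K2 w0 lk tw tv f) w v 0 b)
              (body full n K2 w0 (run full n K2 w0 lk tw tv f) w v (Nat.div (Nat.sub c 1) 32)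
                (Nat.mod (Nat.sub c 1) 32))) := rfl

theorem beq_false_of_ne {a b : ℕ} (h : Nat.beq a b = false) : a ≠ b := by
  intro he; subst he; rw [Nat.beq_refl] at h; exact absurd h (by decide)

theorem body_spec {ih : ℕ → ℕ → Bool} {w v q d : ℕ} (h : body full n K2 w0 ih w v q d = true) :
    Nat.land (Nat.mul 2 w) (rot n (nxt full K2 w q d) d) = 0 ∧ d ≤ K2 ∧ nxt full K2 w q d ≠ w0 ∧
      ih (nxt full K2 w q d) (v + d) = true := by
  unfold body at h
  rw [force_eq] at h
  cases h1 : Nat.beq (Nat.land (Nat.mul 2 w) (rot n (nxt full K2 w q d) d)) 0 with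
  | false => rw [h1] at h; simp at h
  | true =>
    rw [h1, cond_true] at h
    cases h2 : Nat.ble d K2 with
    | false => rw [h2] at h; simp at h
    | true =>
      rw [h2, cond_true] at h
      cases h3 : Nat.beq (nxt full K2 w q d) w0 with
      | true => rw [h3] at h; simp at h
      | false =>
        rw [h3, cond_false] at h
        exact ⟨Nat.eq_of_beq_eq_true h1, Nat.le_of_ble_eq_true h2, beq_false_of_ne h3, h⟩

theorem run_spec (tw tv : ℕ) : ∀ (f w v : ℕ), run full n K2 w0 lk tw tv f w v = true →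
    ((st full K2 lk)^[f] (w, v) = (tw, tv)) ∧
      ∀ i < f, ok full n K2 lk ((st full K2 lk)^[i] (w, v)).1 ∧ ((st full K2 lk)^[i + 1] (w, v)).1 ≠ w0 := by
  intro f
  induction f with
  | zero =>
    intro w v h
    rw [run_zero] at h
    cases h1 : Nat.beq w tw with
    | false => rw [h1] at h; simp at h
    | true =>
      rw [h1, cond_true] at h
      refine ⟨?_, fun i hi => absurd hi (by omega)⟩
      rw [Function.iterate_zero, id, Nat.eq_of_beq_eq_true h1, Nat.eq_of_beq_eq_true h]
  | succ f ih =>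
    intro w v h
    rw [run_succ, force_eq, force_eq, force_eq] at h
    cases h1 : Nat.beq (scan K2 w 0 1 0 0) 0 with
    | true => rw [h1] at h; simp at h
    | false =>
      rw [h1, cond_false, force_eq] at h
      have main : ok full n K2 lk w ∧ nw full K2 lk w ≠ w0 ∧
          run full n K2 w0 lk tw tv f (nw full K2 lk w) (v + nd K2 lk w) = true := by
        cases h2 : Nat.beq (lk w) 0 with
        | true =>
          rw [h2, cond_true] at h
          have e1 : nw full K2 lk w = nxt full K2 w 0 (scan K2 w 0 1 0 0) := by unfold nw; rw [h2]; rfl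
          have e2 : nd K2 lk w = scan K2 w 0 1 0 0 := by unfold nd; rw [h2]; rfl
          obtain ⟨a, b, c, d⟩ := body_spec full n K2 w0 h
          refine ⟨⟨beq_false_of_ne h1, ?_, ?_⟩, ?_, ?_⟩
          · rw [e1, e2]; exact a
          · rw [e2]; exact b
          · rw [e1]; exact c
          · rw [e1, e2]; exact d
        | false =>
          rw [h2, cond_false] at h
          have e1 : nw full K2 lk w = nxt full K2 w (Nat.div (Nat.sub (lk w) 1) 32) (Nat.mod (Nat.sub (lk w) 1) 32) := by
            unfold nw; rw [h2]; rfl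
          have e2 : nd K2 lk w = Nat.mod (Nat.sub (lk w) 1) 32 := by unfold nd; rw [h2]; rfl
          obtain ⟨a, b, c, d⟩ := body_spec full n K2 w0 h
          refine ⟨⟨beq_false_of_ne h1, ?_, ?_⟩, ?_, ?_⟩
          · rw [e1, e2]; exact a
          · rw [e2]; exact b
          · rw [e1]; exact c
          · rw [e1, e2]; exact d
      obtain ⟨m1, m2, m3⟩ := main
      obtain ⟨i1, i2⟩ := ih _ _ m3
      refine ⟨?_, ?_⟩
      · rw [Function.iterate_succ_apply]
        exact i1
      · intro i hi
        rcases i with _ | i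
        · exact ⟨m1, m2⟩
        · have := i2 i (by omega)
          rw [Function.iterate_succ_apply, Function.iterate_succ_apply]
          exact this

theorem st_fst (i : ℕ) (p : ℕ × ℕ) : ((st full K2 lk)^[i] p).1 = (nw full K2 lk)^[i] p.1 := by
  induction i generalizing p with
  | zero => rfl
  | succ i ih => rw [Function.iterate_succ_apply, Function.iterate_succ_apply, ih]; rfl

theorem st_add (i w a v : ℕ) : ((st full K2 lk)^[i] (w, a + v)).2 = ((st full K2 lk)^[i] (w, a)).2 + v := by
  induction i generalizing w a with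
  | zero => rfl
  | succ i ih =>
    rw [Function.iterate_succ_apply, Function.iterate_succ_apply]
    have : st full K2 lk (w, a + v) = (nw full K2 lk w, (a + nd K2 lk w) + v) := by
      unfold st; simp only [Prod.mk.injEq, true_and]; omega
    rw [this, ih]
    rfl

end run

theorem nxt_lt {k w q d : ℕ} (hd : d ≤ 2 * k) : nxt (2 ^ (2 * k + 1) - 1) (2 * k) w q d < 2 ^ (2 * k) := by
  unfold nxt
  set y := Nat.sub (Nat.sub (2 ^ (2 * k + 1) - 1) (Nat.mul 2 w)) (Nat.pow 2 q) with hy
  have hy' : y < 2 ^ (2 * k + 1) := by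
    have : y ≤ 2 ^ (2 * k + 1) - 1 := by
      rw [hy]
      exact le_trans (Nat.sub_le _ _) (Nat.sub_le _ _)
    have : 0 < 2 ^ (2 * k + 1) := by positivity
    omega
  show (y >>> (d + 1)) ||| ((y &&& (2 ^ d - 1)) <<< (2 * k - d)) < 2 ^ (2 * k)
  apply Nat.or_lt_two_pow
  · rw [Nat.shiftRight_eq_div_pow]
    apply Nat.div_lt_of_lt_mul
    calc y < 2 ^ (2 * k + 1) := hy'
      _ ≤ 2 ^ (d + 1) * 2 ^ (2 * k) := by
        rw [← pow_add]; exact Nat.pow_le_pow_right (by norm_num) (by omega)
  · have h1 : y &&& (2 ^ d - 1) < 2 ^ d := by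
      rw [Nat.and_two_pow_sub_one_eq_mod]
      exact Nat.mod_lt _ (by positivity)
    rw [Nat.shiftLeft_eq]
    calc (y &&& (2 ^ d - 1)) * 2 ^ (2 * k - d) < 2 ^ d * 2 ^ (2 * k - d) :=
          Nat.mul_lt_mul_of_pos_right h1 (by positivity)
      _ = 2 ^ (2 * k) := by rw [← pow_add]; congr 1; omega

theorem S_image (k w : ℕ) (s v : ZMod (2 * k + 1)) : S k w (s + v) = (S k w s).image (fun a => a + v) := by
  ext e
  rw [mem_S, Finset.mem_image]
  constructor
  · rintro ⟨i, hi, hb, he⟩
    exact ⟨s + 1 + i, mem_S.2 ⟨i, hi, hb, rfl⟩, by rw [he]; ring⟩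
  · rintro ⟨a, ha, he⟩
    obtain ⟨i, hi, hb, h1⟩ := mem_S.1 ha
    exact ⟨i, hi, hb, by rw [← he, h1]; ring⟩

theorem sound {k w0 N v : ℕ} {lk : ℕ → ℕ} (hN : N * (2 * k + 1) = Nat.choose (2 * k + 1) k)
    (hv : Nat.Coprime v (2 * k + 1)) (hw0 : w0 < 2 ^ (2 * k)) (hN0 : 0 < N)
    (h1 : ∀ i < N, ok (2 ^ (2 * k + 1) - 1) (2 * k + 1) (2 * k) lk
      ((st (2 ^ (2 * k + 1) - 1) (2 * k) lk)^[i] (w0, 0)).1)
    (h2 : ∀ i, 0 < i → i < N → ((st (2 ^ (2 * k + 1) - 1) (2 * k) lk)^[i] (w0, 0)).1 ≠ w0)
    (h3 : (st (2 ^ (2 * k + 1) - 1) (2 * k) lk)^[N] (w0, 0) = (w0, v)) : HamShift k := by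
  set F := st (2 ^ (2 * k + 1) - 1) (2 * k) lk with hF
  set G := nw (2 ^ (2 * k + 1) - 1) (2 * k) lk with hG
  have hfst : ∀ i p, (F^[i] p).1 = G^[i] p.1 := fun i p => st_fst _ _ _ i p
  have hadd : ∀ i w a u, (F^[i] (w, a + u)).2 = (F^[i] (w, a)).2 + u := fun i w a u => st_add _ _ _ i w a u
  have hGN : G^[N] w0 = w0 := by
    have := hfst N (w0, 0)
    rw [h3] at this
    exact this.symm
  -- periodicity
  have hGp : ∀ t i, G^[i + N * t] w0 = G^[i] w0 := by
    intro t
    induction t with
    | zero => intro i; simp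
    | succ t ih =>
      intro i
      have : i + N * (t + 1) = (i + N * t) + N := by ring
      rw [this, Function.iterate_add_apply, hGN, ih]
  have hsp : ∀ i, (F^[i + N] (w0, 0)).2 = (F^[i] (w0, 0)).2 + v := by
    intro i
    rw [Function.iterate_add_apply, h3]
    have := hadd i w0 0 v
    rw [Nat.zero_add] at this
    exact this
  have hspt : ∀ t i, (F^[i + N * t] (w0, 0)).2 = (F^[i] (w0, 0)).2 + t * v := by
    intro t
    induction t with
    | zero => intro i; simp
    | succ t ih =>
      intro i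
      have : i + N * (t + 1) = (i + N * t) + N := by ring
      rw [this, hsp, ih]; ring
  have hWmod : ∀ i, G^[i] w0 = G^[i % N] w0 := by
    intro i
    have := hGp (i / N) (i % N)
    rw [Nat.mod_add_div] at this
    exact this
  have hok : ∀ i, ok (2 ^ (2 * k + 1) - 1) (2 * k + 1) (2 * k) lk (G^[i] w0) := by
    intro i
    rw [hWmod i]
    have := h1 (i % N) (Nat.mod_lt _ hN0)
    rw [hfst] at this
    exact this
  have hdy : ∀ i, Dy (2 * k) (G^[i] w0) := by
    intro i
    obtain ⟨a, b⟩ := scan_spec _ _ _ _ _ _ (hok i).1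
    refine ⟨fun j hj => ?_, ?_⟩
    · have := a j hj; simpa using this
    · simpa using b
  have hlt : ∀ i, G^[i] w0 < 2 ^ (2 * k) := by
    intro i
    rcases i with _ | i
    · exact hw0
    · rw [Function.iterate_succ_apply']
      have hd := (hok i).2.2
      show nw _ _ lk (G^[i] w0) < _
      unfold nw
      cases hb : Nat.beq (lk (G^[i] w0)) 0 with
      | true =>
        rw [cond_true]
        apply nxt_lt
        have : nd (2 * k) lk (G^[i] w0) = scan (2 * k) (G^[i] w0) 0 1 0 0 := by unfold nd; rw [hb]; rfl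
        rw [← this]; exact hd
      | false =>
        rw [cond_false]
        apply nxt_lt
        have : nd (2 * k) lk (G^[i] w0) = Nat.mod (Nat.sub (lk (G^[i] w0)) 1) 32 := by unfold nd; rw [hb]; rfl
        rw [← this]; exact hd
  refine ⟨fun i => S k (G^[i] w0) ((F^[i] (w0, 0)).2 : ZMod (2 * k + 1)), N, v, hN, hv, ?_, ?_, ?_, ?_⟩
  · intro i
    exact S_card _ (hdy i)
  · intro i
    have e1 : G^[i + 1] w0 = nw (2 ^ (2 * k + 1) - 1) (2 * k) lk (G^[i] w0) := by
      rw [Function.iterate_succ_apply']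
    have e2 : (F^[i + 1] (w0, 0)).2 = (F^[i] (w0, 0)).2 + nd (2 * k) lk (G^[i] w0) := by
      rw [Function.iterate_succ_apply']
      have := hfst i (w0, 0)
      show (F^[i] (w0, 0)).2 + nd (2 * k) lk (F^[i] (w0, 0)).1 = _
      rw [this]
    simp only [e1, e2]
    rw [Nat.cast_add]
    exact disj_of_land _ (le_trans (hok i).2.2 (by omega)) (hok i).2.1
  · intro i
    have e1 : G^[i + N] w0 = G^[i] w0 := by
      have := hGp 1 i
      rw [Nat.mul_one] at this
      exact this
    simp only [e1, hsp i]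
    rw [Nat.cast_add]
    exact S_image _ _ _ _
  · intro i j hij hj he
    have hs := star_unique (hdy i) (hdy j) he
    simp only at he
    rw [hs] at he
    have hw := word_unique (hlt i) (hlt j) he
    -- N divides j - i
    obtain ⟨r, rfl⟩ : ∃ r, j = i + r := ⟨j - i, by omega⟩
    have hr : G^[r] w0 = w0 := by
      -- shift to a multiple of N
      have h4 : G^[N * (i + 1) - i] (G^[i] w0) = w0 := by
        rw [← Function.iterate_add_apply]
        have : N * (i + 1) - i + i = 0 + N * (i + 1) := by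
          have : i ≤ N * (i + 1) := by nlinarith
          omega
        rw [this, hGp]
        rfl
      have h5 : G^[N * (i + 1) - i] (G^[i + r] w0) = G^[r] w0 := by
        rw [← Function.iterate_add_apply]
        have : N * (i + 1) - i + (i + r) = r + N * (i + 1) := by
          have : i ≤ N * (i + 1) := by nlinarith
          omega
        rw [this, hGp]
      rw [← h5, ← hw, h4]
    have hrN : r % N = 0 := by
      by_contra hne
      have h6 := h2 (r % N) (Nat.pos_of_ne_zero hne) (Nat.mod_lt _ hN0)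
      rw [hfst] at h6
      apply h6
      show G^[r % N] w0 = w0
      rw [← hWmod]
      exact hr
    obtain ⟨t, rfl⟩ : ∃ t, r = N * t := ⟨r / N, by
      have := Nat.mod_add_div r N
      rw [hrN] at this
      omega⟩
    have hs2 := hspt t i
    rw [hs2] at hs
    have h7 : ((t * v : ℕ) : ZMod (2 * k + 1)) = 0 := by
      rw [Nat.cast_add] at hs
      have : ((F^[i] (w0, 0)).2 : ZMod (2 * k + 1)) + 0 = ((F^[i] (w0, 0)).2 : ZMod (2 * k + 1)) + ((t * v : ℕ) : ZMod (2 * k + 1)) := by
        rw [add_zero]; exact hs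
      exact (add_left_cancel this).symm
    have h8 : (2 * k + 1) ∣ t * v := (ZMod.natCast_eq_zero_iff _ _).1 h7
    have h9 : (2 * k + 1) ∣ t := Nat.Coprime.dvd_of_dvd_mul_right hv.symm h8
    have h10 : 0 < t := by
      rcases Nat.eq_zero_or_pos t with h0 | h0
      · subst h0; omega
      · exact h0
    have h11 := Nat.le_of_dvd h10 h9
    have : N * (2 * k + 1) ≤ N * t := Nat.mul_le_mul_left _ h11
    omega

/-! ### Segments and the hash table -/

/-- `f` legal steps from `(w, v)` to `(w', v')` which do not meet `w0` after the start -/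
def Seg (k w0 : ℕ) (lk : ℕ → ℕ) (w v f w' v' : ℕ) : Prop :=
  ((st (2 ^ (2 * k + 1) - 1) (2 * k) lk)^[f] (w, v) = (w', v')) ∧
      ∀ i < f, ok (2 ^ (2 * k + 1) - 1) (2 * k + 1) (2 * k) lk ((st (2 ^ (2 * k + 1) - 1) (2 * k) lk)^[i] (w, v)).1 ∧
        ((st (2 ^ (2 * k + 1) - 1) (2 * k) lk)^[i + 1] (w, v)).1 ≠ w0

theorem seg_of_run {k full n K2 w0 : ℕ} {lk : ℕ → ℕ} {w v f w' v' : ℕ} (h1 : full = 2 ^ (2 * k + 1) - 1) (h2 : n = 2 * k + 1)
    (h3 : K2 = 2 * k) (h : run full n K2 w0 lk w' v' f w v = true) : Seg k w0 lk w v f w' v' := by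
  subst h1 h2 h3
  exact run_spec _ _ _ _ _ _ _ _ _ _ h

theorem Seg.trans {k w0 : ℕ} {lk : ℕ → ℕ} {w v f w' v' g w'' v'' : ℕ} (h1 : Seg k w0 lk w v f w' v')
    (h2 : Seg k w0 lk w' v' g w'' v'') : Seg k w0 lk w v (f + g) w'' v'' := by
  refine ⟨?_, ?_⟩
  · rw [Nat.add_comm f g, Function.iterate_add_apply, h1.1, h2.1]
  · intro i hi
    by_cases h : i < f
    · exact h1.2 i h
    · have := h2.2 (i - f) (by omega)
      have e1 : i = (i - f) + f := by omega
      have e2 : i + 1 = (i - f + 1) + f := by omega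
      rw [← h1.1, ← Function.iterate_add_apply, ← Function.iterate_add_apply, ← e1, ← e2] at this
      exact this

theorem hamShift_of_seg {k w0 w1 N v wl vl : ℕ} {lk : ℕ → ℕ} (h : Seg k w0 lk w0 0 N wl vl)
    (hl : Seg k w1 lk wl vl 1 w0 v) (hN : (N + 1) * (2 * k + 1) = Nat.choose (2 * k + 1) k)
    (hv : Nat.Coprime v (2 * k + 1)) (hw0 : w0 < 2 ^ (2 * k)) : HamShift k := by
  apply sound (w0 := w0) (N := N + 1) (v := v) (lk := lk) hN hv hw0 (by omega)
  · intro i hi
    by_cases h' : i < N
    · exact (h.2 i h').1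
    · have : i = N := by omega
      subst this
      rw [h.1]
      exact (hl.2 0 (by omega)).1
  · intro i h0 hi
    obtain ⟨j, rfl⟩ : ∃ j, i = j + 1 := ⟨i - 1, by omega⟩
    exact (h.2 j (by omega)).2
  · rw [Function.iterate_succ_apply', h.1]
    have := hl.1
    rw [Function.iterate_one] at this
    exact this

/-- search in a bucket: slots of `2^S` values, key in the upper part, code in the lower 10 bits, `0` = end -/
def srch (f : ℕ) : ℕ → ℕ → ℕ → ℕ :=
  Nat.rec (motive := fun _ => ℕ → ℕ → ℕ → ℕ) (fun _ _ _ => 0)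
    (fun _ ih S e w =>
      cond (Nat.beq e 0) 0
        (cond (Nat.beq (Nat.shiftRight (Nat.mod e S) 10) w) (Nat.mod e 1024) (ih S (Nat.div e S) w))) f

/-- the table `T` has `B` buckets of `E` bits -/
def lkT (T B E S w : ℕ) : ℕ := srch 16 S (Nat.mod (Nat.shiftRight T (Nat.mul E (Nat.mod w B))) (Nat.pow 2 E)) w

end Pool.Agent.Work.MP_8f87b2_sk
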