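import Pool.Agent.Work.MP_8f87b2_sk.SK
import Pool.Agent.Work.MP_8f87b2_co.Reduce

/-! From the periodic sequence of `HamShift` to the compression set (helper30's `lower_of_seq`). -/

namespace Pool.Agent.Work.MP_8f87b2_sk

open Pool.Agent.Work.MP_8f87b2_co

theorem mem_of_hamShift {k : ℕ} (hk : 1 ≤ k) (h : HamShift k) : 2 * k + 1 ∈ compressionSet (oddGraph k) := by
  obtain ⟨x, N, v, hN, hv, hcard, hdisj, hper, hinj⟩ := h
  have hN0 : 0 < N := by
    rcases Nat.eq_zero_or_pos N with h0 | h0
    · subst h0
      have : 0 < Nat.choose (2 * k + 1) k := Nat.choose_pos (by omega)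
      omega
    · exact h0
  have hu : IsUnit (v : ZMod (2 * k + 1)) := (ZMod.isUnit_iff_coprime v (2 * k + 1)).2 hv
  have hsh : ∀ (i : ℕ) (t : ZMod (2 * k + 1)) (A B : V k), A.1 = x i → B.1 = (x i).image (fun a => a + t) →
      shift k t A = B := by
    intro i t A B hA hB
    apply Subtype.ext
    ext e
    rw [mem_shift, hA, hB, Finset.mem_image]
    constructor
    · intro he
      exact ⟨e - t, he, by ring⟩
    · rintro ⟨a, ha, rfl⟩
      simpa using ha
  -- multiples of the period
  have hpt : ∀ (c i : ℕ), x (i + N * c) = (x i).image (fun a => a + (c : ZMod (2 * k + 1)) * (v : ZMod (2 * k + 1))) := by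
    intro c
    induction c with
    | zero => intro i; simp
    | succ c ih =>
      intro i
      have : i + N * (c + 1) = (i + N * c) + N := by ring
      rw [this, hper, ih, Finset.image_image]
      congr 1
      funext a
      simp only [Function.comp]
      push_cast
      ring
  refine lower_of_seq hk (M := N) (fun i => ⟨x i, hcard i⟩) (v : ZMod (2 * k + 1)) hu ?_ ?_ ?_ hN
  · intro i _
    refine ⟨?_, hdisj i⟩
    intro he
    have he' : x i = x (i + 1) := congrArg Subtype.val he
    have hd := hdisj i
    rw [← he'] at hd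
    have h0 : x i = ∅ := (Finset.disjoint_self_iff_empty _).1 hd
    have := hcard i
    rw [h0, Finset.card_empty] at this
    omega
  · symm
    apply hsh 0 _ _ _ rfl
    have := hper 0
    rw [Nat.zero_add] at this
    exact this
  · intro i j hi hj t ht
    -- t = c v with c < n
    obtain ⟨c, hc, hct⟩ : ∃ c : ℕ, c < 2 * k + 1 ∧ t = (c : ZMod (2 * k + 1)) * (v : ZMod (2 * k + 1)) := by
      obtain ⟨u, hu'⟩ := hu
      refine ⟨(t * (↑u⁻¹ : ZMod (2 * k + 1))).val, ZMod.val_lt _, ?_⟩
      rw [ZMod.natCast_zmod_val, ← hu']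
      rw [mul_assoc, Units.inv_mul, mul_one]
    have h1 : (shift k t ⟨x i, hcard i⟩ : V k) = ⟨x (i + N * c), hcard _⟩ := by
      apply hsh i t _ _ rfl
      rw [hct]
      exact hpt c i
    rw [h1] at ht
    have h2 : x (i + N * c) = x j := congrArg Subtype.val ht
    have hb1 : i + N * c < N * (2 * k + 1) := by
      have : N * c + N ≤ N * (2 * k + 1) := by
        have : c + 1 ≤ 2 * k + 1 := hc
        calc N * c + N = N * (c + 1) := by ring
          _ ≤ N * (2 * k + 1) := Nat.mul_le_mul_left _ this
      omega
    have hb2 : j < N * (2 * k + 1) := by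
      have : N * 1 ≤ N * (2 * k + 1) := Nat.mul_le_mul_left _ (by omega)
      omega
    have h3 : i + N * c = j := by
      rcases Nat.lt_trichotomy (i + N * c) j with h | h | h
      · exact absurd h2 (hinj _ _ h hb2)
      · exact h
      · exact absurd h2.symm (hinj _ _ h hb1)
    have hc0 : c = 0 := by
      by_contra hne
      have : N * 1 ≤ N * c := Nat.mul_le_mul_left _ (Nat.pos_of_ne_zero hne)
      omega
    subst hc0
    refine ⟨by omega, ?_⟩
    rw [hct]; simp

end Pool.Agent.Work.MP_8f87b2_sk
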